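import Pool.Agent.Gen.F5.X123C2Dm1.S000
import Pool.Agent.Gen.F5.X123C2Dm1.S001

set_option autoImplicit false
set_option maxRecDepth 100000

namespace Pool.Agent.Gen.F5.X123C2Dm1

open Pool.Agent.Helper72.F5

def n0 : Cl (O (nat_lit 1)) (R (nat_lit 139473))
    (p (nat_lit 0x109) (nat_lit 1) (p (nat_lit 0x89) (nat_lit 1) (p (nat_lit 0xc9) (nat_lit 1) (p (nat_lit 0xc1) (nat_lit 0) (p (nat_lit 0x119) (nat_lit 1) (p (nat_lit 0xd1) (nat_lit 0) (p (nat_lit 0x81) (nat_lit 0) (p (nat_lit 0x41) (nat_lit 1) (p (nat_lit 0x9080788869a) (nat_lit 0) (p (nat_lit 0x8878706861a) (nat_lit 0) (p (nat_lit 0x800080687858a) (nat_lit 0) (p (nat_lit 0x800078605850a) (nat_lit 0) (p (nat_lit 0x605868482) (nat_lit 0) (p (nat_lit 0x585048402) (nat_lit 0) (p (nat_lit 0x160014) (nat_lit 0) (p (nat_lit 0x16000c) (nat_lit 0) (p (nat_lit 0x60592) (nat_lit 0) (p (nat_lit 0x48512) (nat_lit 0) (p (nat_lit 0x50392)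 (nat_lit 0) (p (nat_lit 0x38312) (nat_lit 0) (p (nat_lit 0x40212) (nat_lit 0) (p (nat_lit 0x28192) (nat_lit 0) (p (nat_lit 0x30092) (nat_lit 0) (p (nat_lit 0x18012) (nat_lit 0) pn)))))))))))))))))))))))) :=
  Cl.node (nat_lit 0x200004) (nat_lit 2) (by decide +kernel) (ClAll.succ (ClAll.succ ClAll.zero s30) s31)

def n1 : Cl (O (nat_lit 1)) (R (nat_lit 139473))
    (p (nat_lit 0x109) (nat_lit 1) (p (nat_lit 0x89) (nat_lit 1) (p (nat_lit 0x101) (nat_lit 0) (p (nat_lit 0xc1) (nat_lit 1) (p (nat_lit 0x119) (nat_lit 1) (p (nat_lit 0xd1) (nat_lit 0) (p (nat_lit 0x81) (nat_lit 0) (p (nat_lit 0x41) (nat_lit 1) (p (nat_lit 0x9080788869a) (nat_lit 0) (p (nat_lit 0x8878706861a) (nat_lit 0) (p (nat_lit 0x800080687858a) (nat_lit 0) (p (nat_lit 0x800078605850a) (nat_lit 0) (p (nat_lit 0x605868482) (nat_lit 0) (p (nat_lit 0x585048402) (nat_lit 0) (p (nat_lit 0x160014) (nat_lit 0) (p (nat_lit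 0x16000c) (nat_lit 0) (p (nat_lit 0x60592) (nat_lit 0) (p (nat_lit 0x48512) (nat_lit 0) (p (nat_lit 0x50392) (nat_lit 0) (p (nat_lit 0x38312) (nat_lit 0) (p (nat_lit 0x40212) (nat_lit 0) (p (nat_lit 0x28192) (nat_lit 0) (p (nat_lit 0x30092) (nat_lit 0) (p (nat_lit 0x18012) (nat_lit 0) pn)))))))))))))))))))))))) :=
  Cl.node (nat_lit 0x200004) (nat_lit 2) (by decide +kernel) (ClAll.succ (ClAll.succ ClAll.zero s34) s35)

def n2 : Cl (O (nat_lit 1)) (R (nat_lit 139473))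
    (p (nat_lit 0x200004) (nat_lit 0) (p (nat_lit 0x89) (nat_lit 1) (p (nat_lit 0x101) (nat_lit 1) (p (nat_lit 0xc1) (nat_lit 1) (p (nat_lit 0x119) (nat_lit 1) (p (nat_lit 0xd1) (nat_lit 0) (p (nat_lit 0x81) (nat_lit 0) (p (nat_lit 0x41) (nat_lit 1) (p (nat_lit 0x9080788869a) (nat_lit 0) (p (nat_lit 0x8878706861a) (nat_lit 0) (p (nat_lit 0x800080687858a) (nat_lit 0) (p (nat_lit 0x800078605850a) (nat_lit 0) (p (nat_lit 0x605868482) (nat_lit 0) (p (nat_lit 0x585048402) (nat_lit 0) (p (nat_lit 0x160014) (nat_lit 0) (p (nat_lit 0x16000c) (nat_lit 0) (p (nat_lit 0x60592) (nat_lit 0) (p (nat_lit 0x48512) (nat_lit 0) (p (nat_lit 0x50392) (nat_lit 0) (p (nat_lit 0x38312) (nat_lit 0) (p (nat_lit 0x40212) (nat_lit 0) (p (nat_lit 0x28192) (nat_lit 0) (p (nat_lit 0x30092) (nat_lit 0) (p (nat_lit 0x18012) (nat_lit 0) pn)))))))))))))))))))))))) :=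
  Cl.node (nat_lit 0xb000c) (nat_lit 2) (by decide +kernel) (ClAll.succ (ClAll.succ ClAll.zero s37) s38)

def n3 : Cl (O (nat_lit 1)) (R (nat_lit 139473))
    (p (nat_lit 0xc9) (nat_lit 0) (p (nat_lit 0x89) (nat_lit 1) (p (nat_lit 0x109) (nat_lit 1) (p (nat_lit 0x101) (nat_lit 0) (p (nat_lit 0x111) (nat_lit 0) (p (nat_lit 0xd1) (nat_lit 1) (p (nat_lit 0x81) (nat_lit 0) (p (nat_lit 0x41) (nat_lit 1) (p (nat_lit 0x9080788869a) (nat_lit 0) (p (nat_lit 0x8878706861a) (nat_lit 0) (p (nat_lit 0x800080687858a) (nat_lit 0) (p (nat_lit 0x800078605850a) (nat_lit 0) (p (nat_lit 0x605868482) (nat_lit 0) (p (nat_lit 0x585048402) (nat_lit 0) (p (nat_lit 0x160014) (nat_lit 0) (p (nat_lit 0x16000c) (nat_lit 0) (p (nat_lit 0x60592) (nat_lit 0) (p (nat_lit 0x48512) (nat_lit 0) (p (nat_lit 0x50392) (nat_lit 0) (p (nat_lit 0x38312) (nat_lit 0) (p (nat_lit 0x40212) (nat_lit 0) (p (nat_lit 0x28192)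 (nat_lit 0) (p (nat_lit 0x30092) (nat_lit 0) (p (nat_lit 0x18012) (nat_lit 0) pn)))))))))))))))))))))))) :=
  Cl.node (nat_lit 0x200004) (nat_lit 2) (by decide +kernel) (ClAll.succ (ClAll.succ ClAll.zero s42) s43)

def n4 : Cl (O (nat_lit 1)) (R (nat_lit 139473))
    (p (nat_lit 0x200004) (nat_lit 0) (p (nat_lit 0x111) (nat_lit 1) (p (nat_lit 0xd1) (nat_lit 1) (p (nat_lit 0xc9) (nat_lit 0) (p (nat_lit 0x119) (nat_lit 1) (p (nat_lit 0xc1) (nat_lit 0) (p (nat_lit 0x81) (nat_lit 1) (p (nat_lit 0x41) (nat_lit 1) (p (nat_lit 0x9080788869a) (nat_lit 0) (p (nat_lit 0x8878706861a) (nat_lit 0) (p (nat_lit 0x800080687858a) (nat_lit 0) (p (nat_lit 0x800078605850a) (nat_lit 0) (p (nat_lit 0x605868482) (nat_lit 0) (p (nat_lit 0x585048402) (nat_lit 0) (p (nat_lit 0x160014) (nat_lit 0) (p (nat_lit 0x16000c) (nat_lit 0) (p (nat_lit 0x60592) (nat_lit 0) (p (nat_lit 0x48512) (nat_lit 0) (p (nat_lit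 0x50392) (nat_lit 0) (p (nat_lit 0x38312) (nat_lit 0) (p (nat_lit 0x40212) (nat_lit 0) (p (nat_lit 0x28192) (nat_lit 0) (p (nat_lit 0x30092) (nat_lit 0) (p (nat_lit 0x18012) (nat_lit 0) pn)))))))))))))))))))))))) :=
  Cl.node (nat_lit 0xb000c) (nat_lit 2) (by decide +kernel) (ClAll.succ (ClAll.succ ClAll.zero s56) s57)

def n5 : Cl (O (nat_lit 1)) (R (nat_lit 139473))
    (p (nat_lit 0x101) (nat_lit 0) (p (nat_lit 0x81) (nat_lit 1) (p (nat_lit 0xc1) (nat_lit 1) (p (nat_lit 0x119) (nat_lit 1) (p (nat_lit 0xd1) (nat_lit 0) (p (nat_lit 0x89) (nat_lit 0) (p (nat_lit 0x41) (nat_lit 0) (p (nat_lit 0x9080788869a) (nat_lit 0) (p (nat_lit 0x8878706861a) (nat_lit 0) (p (nat_lit 0x800080687858a) (nat_lit 0) (p (nat_lit 0x800078605850a) (nat_lit 0) (p (nat_lit 0x605868482) (nat_lit 0) (p (nat_lit 0x585048402) (nat_lit 0) (p (nat_lit 0x160014) (nat_lit 0) (p (nat_lit 0x16000c) (nat_lit 0) (p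 (nat_lit 0x60592) (nat_lit 0) (p (nat_lit 0x48512) (nat_lit 0) (p (nat_lit 0x50392) (nat_lit 0) (p (nat_lit 0x38312) (nat_lit 0) (p (nat_lit 0x40212) (nat_lit 0) (p (nat_lit 0x28192) (nat_lit 0) (p (nat_lit 0x30092) (nat_lit 0) (p (nat_lit 0x18012) (nat_lit 0) pn))))))))))))))))))))))) :=
  Cl.node (nat_lit 0x109) (nat_lit 2) (by decide +kernel) (ClAll.succ (ClAll.succ ClAll.zero s6) s7)

def n6 : Cl (O (nat_lit 1)) (R (nat_lit 139473))
    (p (nat_lit 0x89) (nat_lit 0) (p (nat_lit 0x109) (nat_lit 1) (p (nat_lit 0x101) (nat_lit 0) (p (nat_lit 0x119) (nat_lit 0) (p (nat_lit 0xd1) (nat_lit 0) (p (nat_lit 0x81) (nat_lit 0) (p (nat_lit 0x41) (nat_lit 1) (p (nat_lit 0x9080788869a) (nat_lit 0) (p (nat_lit 0x8878706861a) (nat_lit 0) (p (nat_lit 0x800080687858a) (nat_lit 0) (p (nat_lit 0x800078605850a) (nat_lit 0) (p (nat_lit 0x605868482) (nat_lit 0) (p (nat_lit 0x585048402) (nat_lit 0)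 (p (nat_lit 0x160014) (nat_lit 0) (p (nat_lit 0x16000c) (nat_lit 0) (p (nat_lit 0x60592) (nat_lit 0) (p (nat_lit 0x48512) (nat_lit 0) (p (nat_lit 0x50392) (nat_lit 0) (p (nat_lit 0x38312) (nat_lit 0) (p (nat_lit 0x40212) (nat_lit 0) (p (nat_lit 0x28192) (nat_lit 0) (p (nat_lit 0x30092) (nat_lit 0) (p (nat_lit 0x18012) (nat_lit 0) pn))))))))))))))))))))))) :=
  Cl.node (nat_lit 0x200004) (nat_lit 2) (by decide +kernel) (ClAll.succ (ClAll.succ ClAll.zero s20) s21)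

def n7 : Cl (O (nat_lit 1)) (R (nat_lit 139473))
    (p (nat_lit 0x89) (nat_lit 1) (p (nat_lit 0xc1) (nat_lit 0) (p (nat_lit 0x101) (nat_lit 1) (p (nat_lit 0x119) (nat_lit 0) (p (nat_lit 0xd1) (nat_lit 0) (p (nat_lit 0x81) (nat_lit 0) (p (nat_lit 0x41) (nat_lit 1) (p (nat_lit 0x9080788869a) (nat_lit 0) (p (nat_lit 0x8878706861a) (nat_lit 0) (p (nat_lit 0x800080687858a) (nat_lit 0) (p (nat_lit 0x800078605850a) (nat_lit 0) (p (nat_lit 0x605868482) (nat_lit 0) (p (nat_lit 0x585048402) (nat_lit 0) (p (nat_lit 0x160014) (nat_lit 0) (p (nat_lit 0x16000c) (nat_lit 0) (p (nat_lit 0x60592) (nat_lit 0) (p (nat_lit 0x48512) (nat_lit 0) (p (nat_lit 0x50392) (nat_lit 0) (p (nat_lit 0x38312) (nat_lit 0) (p (nat_lit 0x40212) (nat_lit 0) (p (nat_lit 0x28192) (nat_lit 0) (p (nat_lit 0x30092) (nat_lit 0) (p (nat_lit 0x18012) (nat_lit 0) pn))))))))))))))))))))))) :=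
  Cl.node (nat_lit 0xc9) (nat_lit 2) (by decide +kernel) (ClAll.succ (ClAll.succ ClAll.zero s24) s25)

def n8 : Cl (O (nat_lit 1)) (R (nat_lit 139473))
    (p (nat_lit 0x89) (nat_lit 1) (p (nat_lit 0xc9) (nat_lit 1) (p (nat_lit 0xc1) (nat_lit 0) (p (nat_lit 0x119) (nat_lit 1) (p (nat_lit 0xd1) (nat_lit 0) (p (nat_lit 0x81) (nat_lit 0) (p (nat_lit 0x41) (nat_lit 1) (p (nat_lit 0x9080788869a) (nat_lit 0) (p (nat_lit 0x8878706861a) (nat_lit 0) (p (nat_lit 0x800080687858a) (nat_lit 0) (p (nat_lit 0x800078605850a) (nat_lit 0) (p (nat_lit 0x605868482) (nat_lit 0) (p (nat_lit 0x585048402) (nat_lit 0) (p (nat_lit 0x160014) (nat_lit 0) (p (nat_lit 0x16000c) (nat_lit 0) (p (nat_lit 0x60592) (nat_lit 0) (p (nat_lit 0x48512) (nat_lit 0) (p (nat_lit 0x50392) (nat_lit 0) (p (nat_lit 0x38312) (nat_lit 0) (p (nat_lit 0x40212) (nat_lit 0) (p (nat_lit 0x28192) (nat_lit 0) (p (nat_lit 0x30092) (nat_lit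 0) (p (nat_lit 0x18012) (nat_lit 0) pn))))))))))))))))))))))) :=
  Cl.node (nat_lit 0x109) (nat_lit 2) (by decide +kernel) (ClAll.succ (ClAll.succ ClAll.zero s29) n0)

def n9 : Cl (O (nat_lit 1)) (R (nat_lit 139473))
    (p (nat_lit 0x89) (nat_lit 1) (p (nat_lit 0x101) (nat_lit 0) (p (nat_lit 0xc1) (nat_lit 1) (p (nat_lit 0x119) (nat_lit 1) (p (nat_lit 0xd1) (nat_lit 0) (p (nat_lit 0x81) (nat_lit 0) (p (nat_lit 0x41) (nat_lit 1) (p (nat_lit 0x9080788869a) (nat_lit 0) (p (nat_lit 0x8878706861a) (nat_lit 0) (p (nat_lit 0x800080687858a) (nat_lit 0) (p (nat_lit 0x800078605850a) (nat_lit 0) (p (nat_lit 0x605868482) (nat_lit 0) (p (nat_lit 0x585048402) (nat_lit 0) (p (nat_lit 0x160014) (nat_lit 0) (p (nat_lit 0x16000c) (nat_lit 0) (p (nat_lit 0x60592) (nat_lit 0) (p (nat_lit 0x48512) (nat_lit 0) (p (nat_lit 0x50392) (nat_lit 0) (p (nat_lit 0x38312) (nat_lit 0) (p (nat_lit 0x40212) (nat_lit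 0) (p (nat_lit 0x28192) (nat_lit 0) (p (nat_lit 0x30092) (nat_lit 0) (p (nat_lit 0x18012) (nat_lit 0) pn))))))))))))))))))))))) :=
  Cl.node (nat_lit 0x109) (nat_lit 2) (by decide +kernel) (ClAll.succ (ClAll.succ ClAll.zero s33) n1)

def n10 : Cl (O (nat_lit 1)) (R (nat_lit 139473))
    (p (nat_lit 0x89) (nat_lit 1) (p (nat_lit 0x101) (nat_lit 1) (p (nat_lit 0xc1) (nat_lit 1) (p (nat_lit 0x119) (nat_lit 1) (p (nat_lit 0xd1) (nat_lit 0) (p (nat_lit 0x81) (nat_lit 0) (p (nat_lit 0x41) (nat_lit 1) (p (nat_lit 0x9080788869a) (nat_lit 0) (p (nat_lit 0x8878706861a) (nat_lit 0) (p (nat_lit 0x800080687858a) (nat_lit 0) (p (nat_lit 0x800078605850a) (nat_lit 0) (p (nat_lit 0x605868482) (nat_lit 0) (p (nat_lit 0x585048402) (nat_lit 0) (p (nat_lit 0x160014) (nat_lit 0) (p (nat_lit 0x16000c) (nat_lit 0) (p (nat_lit 0x60592) (nat_lit 0) (p (nat_lit 0x48512) (nat_lit 0) (p (nat_lit 0x50392) (nat_lit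 0) (p (nat_lit 0x38312) (nat_lit 0) (p (nat_lit 0x40212) (nat_lit 0) (p (nat_lit 0x28192) (nat_lit 0) (p (nat_lit 0x30092) (nat_lit 0) (p (nat_lit 0x18012) (nat_lit 0) pn))))))))))))))))))))))) :=
  Cl.node (nat_lit 0x200004) (nat_lit 2) (by decide +kernel) (ClAll.succ (ClAll.succ ClAll.zero n2) s39)

def n11 : Cl (O (nat_lit 1)) (R (nat_lit 139473))
    (p (nat_lit 0x89) (nat_lit 1) (p (nat_lit 0x109) (nat_lit 1) (p (nat_lit 0x101) (nat_lit 0) (p (nat_lit 0x111) (nat_lit 0) (p (nat_lit 0xd1) (nat_lit 1) (p (nat_lit 0x81) (nat_lit 0) (p (nat_lit 0x41) (nat_lit 1) (p (nat_lit 0x9080788869a) (nat_lit 0) (p (nat_lit 0x8878706861a) (nat_lit 0) (p (nat_lit 0x800080687858a) (nat_lit 0) (p (nat_lit 0x800078605850a) (nat_lit 0) (p (nat_lit 0x605868482) (nat_lit 0) (p (nat_lit 0x585048402) (nat_lit 0) (p (nat_lit 0x160014) (nat_lit 0) (p (nat_lit 0x16000c) (nat_lit 0) (p (nat_lit 0x60592)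 (nat_lit 0) (p (nat_lit 0x48512) (nat_lit 0) (p (nat_lit 0x50392) (nat_lit 0) (p (nat_lit 0x38312) (nat_lit 0) (p (nat_lit 0x40212) (nat_lit 0) (p (nat_lit 0x28192) (nat_lit 0) (p (nat_lit 0x30092) (nat_lit 0) (p (nat_lit 0x18012) (nat_lit 0) pn))))))))))))))))))))))) :=
  Cl.node (nat_lit 0xc9) (nat_lit 2) (by decide +kernel) (ClAll.succ (ClAll.succ ClAll.zero n3) s44)

def n12 : Cl (O (nat_lit 1)) (R (nat_lit 139473))
    (p (nat_lit 0x111) (nat_lit 1) (p (nat_lit 0xd1) (nat_lit 1) (p (nat_lit 0xc9) (nat_lit 0) (p (nat_lit 0x119) (nat_lit 1) (p (nat_lit 0xc1) (nat_lit 0) (p (nat_lit 0x81) (nat_lit 1) (p (nat_lit 0x41) (nat_lit 1) (p (nat_lit 0x9080788869a) (nat_lit 0) (p (nat_lit 0x8878706861a) (nat_lit 0) (p (nat_lit 0x800080687858a) (nat_lit 0) (p (nat_lit 0x800078605850a) (nat_lit 0) (p (nat_lit 0x605868482) (nat_lit 0) (p (nat_lit 0x585048402) (nat_lit 0) (p (nat_lit 0x160014)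 (nat_lit 0) (p (nat_lit 0x16000c) (nat_lit 0) (p (nat_lit 0x60592) (nat_lit 0) (p (nat_lit 0x48512) (nat_lit 0) (p (nat_lit 0x50392) (nat_lit 0) (p (nat_lit 0x38312) (nat_lit 0) (p (nat_lit 0x40212) (nat_lit 0) (p (nat_lit 0x28192) (nat_lit 0) (p (nat_lit 0x30092) (nat_lit 0) (p (nat_lit 0x18012) (nat_lit 0) pn))))))))))))))))))))))) :=
  Cl.node (nat_lit 0x200004) (nat_lit 2) (by decide +kernel) (ClAll.succ (ClAll.succ ClAll.zero n4) s58)

def n13 : Cl (O (nat_lit 1)) (R (nat_lit 139473))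
    (p (nat_lit 0x111) (nat_lit 1) (p (nat_lit 0x109) (nat_lit 0) (p (nat_lit 0xc9) (nat_lit 1) (p (nat_lit 0x119) (nat_lit 1) (p (nat_lit 0xc1) (nat_lit 0) (p (nat_lit 0x81) (nat_lit 1) (p (nat_lit 0x41) (nat_lit 1) (p (nat_lit 0x9080788869a) (nat_lit 0) (p (nat_lit 0x8878706861a) (nat_lit 0) (p (nat_lit 0x800080687858a) (nat_lit 0) (p (nat_lit 0x800078605850a) (nat_lit 0) (p (nat_lit 0x605868482) (nat_lit 0) (p (nat_lit 0x585048402) (nat_lit 0) (p (nat_lit 0x160014) (nat_lit 0) (p (nat_lit 0x16000c) (nat_lit 0) (p (nat_lit 0x60592) (nat_lit 0) (p (nat_lit 0x48512) (nat_lit 0) (p (nat_lit 0x50392) (nat_lit 0) (p (nat_lit 0x38312) (nat_lit 0) (p (nat_lit 0x40212) (nat_lit 0) (p (nat_lit 0x28192) (nat_lit 0) (p (nat_lit 0x30092) (nat_lit 0) (p (nat_lit 0x18012) (nat_lit 0) pn))))))))))))))))))))))) :=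
  Cl.node (nat_lit 0x200004) (nat_lit 2) (by decide +kernel) (ClAll.succ (ClAll.succ ClAll.zero s60) s61)

def n14 : Cl (O (nat_lit 1)) (R (nat_lit 139473))
    (p (nat_lit 0x81) (nat_lit 1) (p (nat_lit 0xc1) (nat_lit 1) (p (nat_lit 0x119) (nat_lit 1) (p (nat_lit 0xd1) (nat_lit 0) (p (nat_lit 0x89) (nat_lit 0) (p (nat_lit 0x41) (nat_lit 0) (p (nat_lit 0x9080788869a) (nat_lit 0) (p (nat_lit 0x8878706861a) (nat_lit 0) (p (nat_lit 0x800080687858a) (nat_lit 0) (p (nat_lit 0x800078605850a) (nat_lit 0) (p (nat_lit 0x605868482) (nat_lit 0) (p (nat_lit 0x585048402) (nat_lit 0) (p (nat_lit 0x160014) (nat_lit 0) (p (nat_lit 0x16000c) (nat_lit 0) (p (nat_lit 0x60592) (nat_lit 0) (p (nat_lit 0x48512) (nat_lit 0) (p (nat_lit 0x50392) (nat_lit 0) (p (nat_lit 0x38312) (nat_lit 0) (p (nat_lit 0x40212) (nat_lit 0) (p (nat_lit 0x28192) (nat_lit 0) (p (nat_lit 0x30092) (nat_lit 0) (p (nat_lit 0x18012)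 (nat_lit 0) pn)))))))))))))))))))))) :=
  Cl.node (nat_lit 0x101) (nat_lit 2) (by decide +kernel) (ClAll.succ (ClAll.succ ClAll.zero n5) s8)

def n15 : Cl (O (nat_lit 1)) (R (nat_lit 139473))
    (p (nat_lit 0x109) (nat_lit 1) (p (nat_lit 0x101) (nat_lit 0) (p (nat_lit 0x119) (nat_lit 0) (p (nat_lit 0xd1) (nat_lit 0) (p (nat_lit 0x81) (nat_lit 0) (p (nat_lit 0x41) (nat_lit 1) (p (nat_lit 0x9080788869a) (nat_lit 0) (p (nat_lit 0x8878706861a) (nat_lit 0) (p (nat_lit 0x800080687858a) (nat_lit 0) (p (nat_lit 0x800078605850a) (nat_lit 0) (p (nat_lit 0x605868482) (nat_lit 0) (p (nat_lit 0x585048402) (nat_lit 0) (p (nat_lit 0x160014) (nat_lit 0) (p (nat_lit 0x16000c) (nat_lit 0) (p (nat_lit 0x60592) (nat_lit 0) (p (nat_lit 0x48512) (nat_lit 0) (p (nat_lit 0x50392) (nat_lit 0) (p (nat_lit 0x38312) (nat_lit 0) (p (nat_lit 0x40212) (nat_lit 0) (p (nat_lit 0x28192) (nat_lit 0) (p (nat_lit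 0x30092) (nat_lit 0) (p (nat_lit 0x18012) (nat_lit 0) pn)))))))))))))))))))))) :=
  Cl.node (nat_lit 0x89) (nat_lit 2) (by decide +kernel) (ClAll.succ (ClAll.succ ClAll.zero n6) s22)

def n16 : Cl (O (nat_lit 1)) (R (nat_lit 139473))
    (p (nat_lit 0xc1) (nat_lit 0) (p (nat_lit 0x101) (nat_lit 1) (p (nat_lit 0x119) (nat_lit 0) (p (nat_lit 0xd1) (nat_lit 0) (p (nat_lit 0x81) (nat_lit 0) (p (nat_lit 0x41) (nat_lit 1) (p (nat_lit 0x9080788869a) (nat_lit 0) (p (nat_lit 0x8878706861a) (nat_lit 0) (p (nat_lit 0x800080687858a) (nat_lit 0) (p (nat_lit 0x800078605850a) (nat_lit 0) (p (nat_lit 0x605868482) (nat_lit 0) (p (nat_lit 0x585048402) (nat_lit 0) (p (nat_lit 0x160014) (nat_lit 0) (p (nat_lit 0x16000c) (nat_lit 0) (p (nat_lit 0x60592) (nat_lit 0) (p (nat_lit 0x48512) (nat_lit 0) (p (nat_lit 0x50392) (nat_lit 0) (p (nat_lit 0x38312) (nat_lit 0) (p (nat_lit 0x40212) (nat_lit 0) (p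 (nat_lit 0x28192) (nat_lit 0) (p (nat_lit 0x30092) (nat_lit 0) (p (nat_lit 0x18012) (nat_lit 0) pn)))))))))))))))))))))) :=
  Cl.node (nat_lit 0x89) (nat_lit 2) (by decide +kernel) (ClAll.succ (ClAll.succ ClAll.zero s23) n7)

def n17 : Cl (O (nat_lit 1)) (R (nat_lit 139473))
    (p (nat_lit 0xc9) (nat_lit 1) (p (nat_lit 0xc1) (nat_lit 0) (p (nat_lit 0x119) (nat_lit 1) (p (nat_lit 0xd1) (nat_lit 0) (p (nat_lit 0x81) (nat_lit 0) (p (nat_lit 0x41) (nat_lit 1) (p (nat_lit 0x9080788869a) (nat_lit 0) (p (nat_lit 0x8878706861a) (nat_lit 0) (p (nat_lit 0x800080687858a) (nat_lit 0) (p (nat_lit 0x800078605850a) (nat_lit 0) (p (nat_lit 0x605868482) (nat_lit 0) (p (nat_lit 0x585048402) (nat_lit 0) (p (nat_lit 0x160014) (nat_lit 0) (p (nat_lit 0x16000c) (nat_lit 0) (p (nat_lit 0x60592) (nat_lit 0) (p (nat_lit 0x48512) (nat_lit 0) (p (nat_lit 0x50392) (nat_lit 0) (p (nat_lit 0x38312) (nat_lit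 0) (p (nat_lit 0x40212) (nat_lit 0) (p (nat_lit 0x28192) (nat_lit 0) (p (nat_lit 0x30092) (nat_lit 0) (p (nat_lit 0x18012) (nat_lit 0) pn)))))))))))))))))))))) :=
  Cl.node (nat_lit 0x89) (nat_lit 2) (by decide +kernel) (ClAll.succ (ClAll.succ ClAll.zero s28) n8)

def n18 : Cl (O (nat_lit 1)) (R (nat_lit 139473))
    (p (nat_lit 0x101) (nat_lit 0) (p (nat_lit 0xc1) (nat_lit 1) (p (nat_lit 0x119) (nat_lit 1) (p (nat_lit 0xd1) (nat_lit 0) (p (nat_lit 0x81) (nat_lit 0) (p (nat_lit 0x41) (nat_lit 1) (p (nat_lit 0x9080788869a) (nat_lit 0) (p (nat_lit 0x8878706861a) (nat_lit 0) (p (nat_lit 0x800080687858a) (nat_lit 0) (p (nat_lit 0x800078605850a) (nat_lit 0) (p (nat_lit 0x605868482) (nat_lit 0) (p (nat_lit 0x585048402) (nat_lit 0) (p (nat_lit 0x160014) (nat_lit 0) (p (nat_lit 0x16000c) (nat_lit 0) (p (nat_lit 0x60592) (nat_lit 0) (p (nat_lit 0x48512) (nat_lit 0) (p (nat_lit 0x50392)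 (nat_lit 0) (p (nat_lit 0x38312) (nat_lit 0) (p (nat_lit 0x40212) (nat_lit 0) (p (nat_lit 0x28192) (nat_lit 0) (p (nat_lit 0x30092) (nat_lit 0) (p (nat_lit 0x18012) (nat_lit 0) pn)))))))))))))))))))))) :=
  Cl.node (nat_lit 0x89) (nat_lit 2) (by decide +kernel) (ClAll.succ (ClAll.succ ClAll.zero s32) n9)

def n19 : Cl (O (nat_lit 1)) (R (nat_lit 139473))
    (p (nat_lit 0x101) (nat_lit 1) (p (nat_lit 0xc1) (nat_lit 1) (p (nat_lit 0x119) (nat_lit 1) (p (nat_lit 0xd1) (nat_lit 0) (p (nat_lit 0x81) (nat_lit 0) (p (nat_lit 0x41) (nat_lit 1) (p (nat_lit 0x9080788869a) (nat_lit 0) (p (nat_lit 0x8878706861a) (nat_lit 0) (p (nat_lit 0x800080687858a) (nat_lit 0) (p (nat_lit 0x800078605850a) (nat_lit 0) (p (nat_lit 0x605868482) (nat_lit 0) (p (nat_lit 0x585048402) (nat_lit 0) (p (nat_lit 0x160014) (nat_lit 0) (p (nat_lit 0x16000c) (nat_lit 0) (p (nat_lit 0x60592) (nat_lit 0) (p (nat_lit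 0x48512) (nat_lit 0) (p (nat_lit 0x50392) (nat_lit 0) (p (nat_lit 0x38312) (nat_lit 0) (p (nat_lit 0x40212) (nat_lit 0) (p (nat_lit 0x28192) (nat_lit 0) (p (nat_lit 0x30092) (nat_lit 0) (p (nat_lit 0x18012) (nat_lit 0) pn)))))))))))))))))))))) :=
  Cl.node (nat_lit 0x89) (nat_lit 2) (by decide +kernel) (ClAll.succ (ClAll.succ ClAll.zero s36) n10)

def n20 : Cl (O (nat_lit 1)) (R (nat_lit 139473))
    (p (nat_lit 0x109) (nat_lit 1) (p (nat_lit 0x101) (nat_lit 0) (p (nat_lit 0x111) (nat_lit 0) (p (nat_lit 0xd1) (nat_lit 1) (p (nat_lit 0x81) (nat_lit 0) (p (nat_lit 0x41) (nat_lit 1) (p (nat_lit 0x9080788869a) (nat_lit 0) (p (nat_lit 0x8878706861a) (nat_lit 0) (p (nat_lit 0x800080687858a) (nat_lit 0) (p (nat_lit 0x800078605850a) (nat_lit 0) (p (nat_lit 0x605868482) (nat_lit 0) (p (nat_lit 0x585048402) (nat_lit 0) (p (nat_lit 0x160014) (nat_lit 0) (p (nat_lit 0x16000c) (nat_lit 0) (p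 (nat_lit 0x60592) (nat_lit 0) (p (nat_lit 0x48512) (nat_lit 0) (p (nat_lit 0x50392) (nat_lit 0) (p (nat_lit 0x38312) (nat_lit 0) (p (nat_lit 0x40212) (nat_lit 0) (p (nat_lit 0x28192) (nat_lit 0) (p (nat_lit 0x30092) (nat_lit 0) (p (nat_lit 0x18012) (nat_lit 0) pn)))))))))))))))))))))) :=
  Cl.node (nat_lit 0x89) (nat_lit 2) (by decide +kernel) (ClAll.succ (ClAll.succ ClAll.zero s41) n11)

def n21 : Cl (O (nat_lit 1)) (R (nat_lit 139473))
    (p (nat_lit 0x89) (nat_lit 1) (p (nat_lit 0x101) (nat_lit 1) (p (nat_lit 0x111) (nat_lit 0) (p (nat_lit 0xd1) (nat_lit 1) (p (nat_lit 0x81) (nat_lit 0) (p (nat_lit 0x41) (nat_lit 1) (p (nat_lit 0x9080788869a) (nat_lit 0) (p (nat_lit 0x8878706861a) (nat_lit 0) (p (nat_lit 0x800080687858a) (nat_lit 0) (p (nat_lit 0x800078605850a) (nat_lit 0) (p (nat_lit 0x605868482) (nat_lit 0) (p (nat_lit 0x585048402) (nat_lit 0) (p (nat_lit 0x160014) (nat_lit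 0) (p (nat_lit 0x16000c) (nat_lit 0) (p (nat_lit 0x60592) (nat_lit 0) (p (nat_lit 0x48512) (nat_lit 0) (p (nat_lit 0x50392) (nat_lit 0) (p (nat_lit 0x38312) (nat_lit 0) (p (nat_lit 0x40212) (nat_lit 0) (p (nat_lit 0x28192) (nat_lit 0) (p (nat_lit 0x30092) (nat_lit 0) (p (nat_lit 0x18012) (nat_lit 0) pn)))))))))))))))))))))) :=
  Cl.node (nat_lit 0xc9) (nat_lit 2) (by decide +kernel) (ClAll.succ (ClAll.succ ClAll.zero s46) s47)

def n22 : Cl (O (nat_lit 1)) (R (nat_lit 139473))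
    (p (nat_lit 0xc9) (nat_lit 0) (p (nat_lit 0x101) (nat_lit 1) (p (nat_lit 0x119) (nat_lit 0) (p (nat_lit 0xc1) (nat_lit 0) (p (nat_lit 0x81) (nat_lit 1) (p (nat_lit 0x41) (nat_lit 1) (p (nat_lit 0x9080788869a) (nat_lit 0) (p (nat_lit 0x8878706861a) (nat_lit 0) (p (nat_lit 0x800080687858a) (nat_lit 0) (p (nat_lit 0x800078605850a) (nat_lit 0) (p (nat_lit 0x605868482) (nat_lit 0) (p (nat_lit 0x585048402) (nat_lit 0) (p (nat_lit 0x160014) (nat_lit 0) (p (nat_lit 0x16000c) (nat_lit 0) (p (nat_lit 0x60592) (nat_lit 0) (p (nat_lit 0x48512) (nat_lit 0) (p (nat_lit 0x50392) (nat_lit 0) (p (nat_lit 0x38312) (nat_lit 0) (p (nat_lit 0x40212) (nat_lit 0) (p (nat_lit 0x28192) (nat_lit 0) (p (nat_lit 0x30092) (nat_lit 0) (p (nat_lit 0x18012) (nat_lit 0) pn)))))))))))))))))))))) :=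
  Cl.node (nat_lit 0xd1) (nat_lit 2) (by decide +kernel) (ClAll.succ (ClAll.succ ClAll.zero s51) s52)

def n23 : Cl (O (nat_lit 1)) (R (nat_lit 139473))
    (p (nat_lit 0xd1) (nat_lit 1) (p (nat_lit 0xc9) (nat_lit 0) (p (nat_lit 0x119) (nat_lit 1) (p (nat_lit 0xc1) (nat_lit 0) (p (nat_lit 0x81) (nat_lit 1) (p (nat_lit 0x41) (nat_lit 1) (p (nat_lit 0x9080788869a) (nat_lit 0) (p (nat_lit 0x8878706861a) (nat_lit 0) (p (nat_lit 0x800080687858a) (nat_lit 0) (p (nat_lit 0x800078605850a) (nat_lit 0) (p (nat_lit 0x605868482) (nat_lit 0) (p (nat_lit 0x585048402) (nat_lit 0) (p (nat_lit 0x160014) (nat_lit 0) (p (nat_lit 0x16000c) (nat_lit 0) (p (nat_lit 0x60592) (nat_lit 0) (p (nat_lit 0x48512) (nat_lit 0) (p (nat_lit 0x50392) (nat_lit 0) (p (nat_lit 0x38312) (nat_lit 0) (p (nat_lit 0x40212) (nat_lit 0) (p (nat_lit 0x28192) (nat_lit 0) (p (nat_lit 0x30092) (nat_lit 0) (p (nat_lit 0x18012)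 (nat_lit 0) pn)))))))))))))))))))))) :=
  Cl.node (nat_lit 0x111) (nat_lit 2) (by decide +kernel) (ClAll.succ (ClAll.succ ClAll.zero s55) n12)

def n24 : Cl (O (nat_lit 1)) (R (nat_lit 139473))
    (p (nat_lit 0x109) (nat_lit 0) (p (nat_lit 0xc9) (nat_lit 1) (p (nat_lit 0x119) (nat_lit 1) (p (nat_lit 0xc1) (nat_lit 0) (p (nat_lit 0x81) (nat_lit 1) (p (nat_lit 0x41) (nat_lit 1) (p (nat_lit 0x9080788869a) (nat_lit 0) (p (nat_lit 0x8878706861a) (nat_lit 0) (p (nat_lit 0x800080687858a) (nat_lit 0) (p (nat_lit 0x800078605850a) (nat_lit 0) (p (nat_lit 0x605868482) (nat_lit 0) (p (nat_lit 0x585048402) (nat_lit 0) (p (nat_lit 0x160014) (nat_lit 0) (p (nat_lit 0x16000c) (nat_lit 0) (p (nat_lit 0x60592) (nat_lit 0) (p (nat_lit 0x48512) (nat_lit 0) (p (nat_lit 0x50392) (nat_lit 0) (p (nat_lit 0x38312) (nat_lit 0) (p (nat_lit 0x40212) (nat_lit 0) (p (nat_lit 0x28192) (nat_lit 0) (p (nat_lit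 0x30092) (nat_lit 0) (p (nat_lit 0x18012) (nat_lit 0) pn)))))))))))))))))))))) :=
  Cl.node (nat_lit 0x111) (nat_lit 2) (by decide +kernel) (ClAll.succ (ClAll.succ ClAll.zero s59) n13)

def n25 : Cl (O (nat_lit 1)) (R (nat_lit 139473))
    (p (nat_lit 0x101) (nat_lit 0) (p (nat_lit 0x119) (nat_lit 0) (p (nat_lit 0xd1) (nat_lit 0) (p (nat_lit 0x89) (nat_lit 0) (p (nat_lit 0x41) (nat_lit 0) (p (nat_lit 0x9080788869a) (nat_lit 0) (p (nat_lit 0x8878706861a) (nat_lit 0) (p (nat_lit 0x800080687858a) (nat_lit 0) (p (nat_lit 0x800078605850a) (nat_lit 0) (p (nat_lit 0x605868482) (nat_lit 0) (p (nat_lit 0x585048402) (nat_lit 0) (p (nat_lit 0x160014) (nat_lit 0) (p (nat_lit 0x16000c) (nat_lit 0) (p (nat_lit 0x60592) (nat_lit 0) (p (nat_lit 0x48512) (nat_lit 0) (p (nat_lit 0x50392) (nat_lit 0) (p (nat_lit 0x38312) (nat_lit 0) (p (nat_lit 0x40212) (nat_lit 0) (p (nat_lit 0x28192) (nat_lit 0)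 (p (nat_lit 0x30092) (nat_lit 0) (p (nat_lit 0x18012) (nat_lit 0) pn))))))))))))))))))))) :=
  Cl.node (nat_lit 0x109) (nat_lit 2) (by decide +kernel) (ClAll.succ (ClAll.succ ClAll.zero s0) s1)

def n26 : Cl (O (nat_lit 1)) (R (nat_lit 139473))
    (p (nat_lit 0x101) (nat_lit 1) (p (nat_lit 0x119) (nat_lit 0) (p (nat_lit 0xd1) (nat_lit 0) (p (nat_lit 0x89) (nat_lit 0) (p (nat_lit 0x41) (nat_lit 0) (p (nat_lit 0x9080788869a) (nat_lit 0) (p (nat_lit 0x8878706861a) (nat_lit 0) (p (nat_lit 0x800080687858a) (nat_lit 0) (p (nat_lit 0x800078605850a) (nat_lit 0) (p (nat_lit 0x605868482) (nat_lit 0) (p (nat_lit 0x585048402) (nat_lit 0) (p (nat_lit 0x160014) (nat_lit 0) (p (nat_lit 0x16000c) (nat_lit 0) (p (nat_lit 0x60592) (nat_lit 0) (p (nat_lit 0x48512) (nat_lit 0) (p (nat_lit 0x50392) (nat_lit 0) (p (nat_lit 0x38312) (nat_lit 0) (p (nat_lit 0x40212) (nat_lit 0) (p (nat_lit 0x28192) (nat_lit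 0) (p (nat_lit 0x30092) (nat_lit 0) (p (nat_lit 0x18012) (nat_lit 0) pn))))))))))))))))))))) :=
  Cl.node (nat_lit 0x81) (nat_lit 2) (by decide +kernel) (ClAll.succ (ClAll.succ ClAll.zero s2) s3)

def n27 : Cl (O (nat_lit 1)) (R (nat_lit 139473))
    (p (nat_lit 0xc1) (nat_lit 1) (p (nat_lit 0x119) (nat_lit 1) (p (nat_lit 0xd1) (nat_lit 0) (p (nat_lit 0x89) (nat_lit 0) (p (nat_lit 0x41) (nat_lit 0) (p (nat_lit 0x9080788869a) (nat_lit 0) (p (nat_lit 0x8878706861a) (nat_lit 0) (p (nat_lit 0x800080687858a) (nat_lit 0) (p (nat_lit 0x800078605850a) (nat_lit 0) (p (nat_lit 0x605868482) (nat_lit 0) (p (nat_lit 0x585048402) (nat_lit 0) (p (nat_lit 0x160014) (nat_lit 0) (p (nat_lit 0x16000c) (nat_lit 0) (p (nat_lit 0x60592) (nat_lit 0) (p (nat_lit 0x48512) (nat_lit 0) (p (nat_lit 0x50392) (nat_lit 0) (p (nat_lit 0x38312) (nat_lit 0) (p (nat_lit 0x40212) (nat_lit 0) (p (nat_lit 0x28192)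 (nat_lit 0) (p (nat_lit 0x30092) (nat_lit 0) (p (nat_lit 0x18012) (nat_lit 0) pn))))))))))))))))))))) :=
  Cl.node (nat_lit 0x81) (nat_lit 2) (by decide +kernel) (ClAll.succ (ClAll.succ ClAll.zero s5) n14)

def n28 : Cl (O (nat_lit 1)) (R (nat_lit 139473))
    (p (nat_lit 0x101) (nat_lit 0) (p (nat_lit 0x111) (nat_lit 0) (p (nat_lit 0xd1) (nat_lit 1) (p (nat_lit 0x89) (nat_lit 0) (p (nat_lit 0x41) (nat_lit 0) (p (nat_lit 0x9080788869a) (nat_lit 0) (p (nat_lit 0x8878706861a) (nat_lit 0) (p (nat_lit 0x800080687858a) (nat_lit 0) (p (nat_lit 0x800078605850a) (nat_lit 0) (p (nat_lit 0x605868482) (nat_lit 0) (p (nat_lit 0x585048402) (nat_lit 0) (p (nat_lit 0x160014) (nat_lit 0) (p (nat_lit 0x16000c) (nat_lit 0) (p (nat_lit 0x60592) (nat_lit 0) (p (nat_lit 0x48512) (nat_lit 0) (p (nat_lit 0x50392) (nat_lit 0) (p (nat_lit 0x38312) (nat_lit 0) (p (nat_lit 0x40212) (nat_lit 0) (p (nat_lit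 0x28192) (nat_lit 0) (p (nat_lit 0x30092) (nat_lit 0) (p (nat_lit 0x18012) (nat_lit 0) pn))))))))))))))))))))) :=
  Cl.node (nat_lit 0x109) (nat_lit 2) (by decide +kernel) (ClAll.succ (ClAll.succ ClAll.zero s9) s10)

def n29 : Cl (O (nat_lit 1)) (R (nat_lit 139473))
    (p (nat_lit 0x101) (nat_lit 1) (p (nat_lit 0x111) (nat_lit 0) (p (nat_lit 0xd1) (nat_lit 1) (p (nat_lit 0x89) (nat_lit 0) (p (nat_lit 0x41) (nat_lit 0) (p (nat_lit 0x9080788869a) (nat_lit 0) (p (nat_lit 0x8878706861a) (nat_lit 0) (p (nat_lit 0x800080687858a) (nat_lit 0) (p (nat_lit 0x800078605850a) (nat_lit 0) (p (nat_lit 0x605868482) (nat_lit 0) (p (nat_lit 0x585048402) (nat_lit 0) (p (nat_lit 0x160014) (nat_lit 0) (p (nat_lit 0x16000c) (nat_lit 0) (p (nat_lit 0x60592) (nat_lit 0) (p (nat_lit 0x48512) (nat_lit 0) (p (nat_lit 0x50392) (nat_lit 0) (p (nat_lit 0x38312) (nat_lit 0) (p (nat_lit 0x40212) (nat_lit 0)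 (p (nat_lit 0x28192) (nat_lit 0) (p (nat_lit 0x30092) (nat_lit 0) (p (nat_lit 0x18012) (nat_lit 0) pn))))))))))))))))))))) :=
  Cl.node (nat_lit 0x81) (nat_lit 2) (by decide +kernel) (ClAll.succ (ClAll.succ ClAll.zero s11) s12)

def n30 : Cl (O (nat_lit 1)) (R (nat_lit 139473))
    (p (nat_lit 0x101) (nat_lit 0) (p (nat_lit 0x119) (nat_lit 0) (p (nat_lit 0xd1) (nat_lit 0) (p (nat_lit 0x81) (nat_lit 0) (p (nat_lit 0x41) (nat_lit 1) (p (nat_lit 0x9080788869a) (nat_lit 0) (p (nat_lit 0x8878706861a) (nat_lit 0) (p (nat_lit 0x800080687858a) (nat_lit 0) (p (nat_lit 0x800078605850a) (nat_lit 0) (p (nat_lit 0x605868482) (nat_lit 0) (p (nat_lit 0x585048402) (nat_lit 0) (p (nat_lit 0x160014) (nat_lit 0) (p (nat_lit 0x16000c) (nat_lit 0) (p (nat_lit 0x60592) (nat_lit 0) (p (nat_lit 0x48512) (nat_lit 0) (p (nat_lit 0x50392) (nat_lit 0) (p (nat_lit 0x38312) (nat_lit 0) (p (nat_lit 0x40212)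 (nat_lit 0) (p (nat_lit 0x28192) (nat_lit 0) (p (nat_lit 0x30092) (nat_lit 0) (p (nat_lit 0x18012) (nat_lit 0) pn))))))))))))))))))))) :=
  Cl.node (nat_lit 0x109) (nat_lit 2) (by decide +kernel) (ClAll.succ (ClAll.succ ClAll.zero s19) n15)

def n31 : Cl (O (nat_lit 1)) (R (nat_lit 139473))
    (p (nat_lit 0x101) (nat_lit 1) (p (nat_lit 0x119) (nat_lit 0) (p (nat_lit 0xd1) (nat_lit 0) (p (nat_lit 0x81) (nat_lit 0) (p (nat_lit 0x41) (nat_lit 1) (p (nat_lit 0x9080788869a) (nat_lit 0) (p (nat_lit 0x8878706861a) (nat_lit 0) (p (nat_lit 0x800080687858a) (nat_lit 0) (p (nat_lit 0x800078605850a) (nat_lit 0) (p (nat_lit 0x605868482) (nat_lit 0) (p (nat_lit 0x585048402) (nat_lit 0) (p (nat_lit 0x160014) (nat_lit 0) (p (nat_lit 0x16000c) (nat_lit 0) (p (nat_lit 0x60592) (nat_lit 0) (p (nat_lit 0x48512) (nat_lit 0) (p (nat_lit 0x50392) (nat_lit 0) (p (nat_lit 0x38312) (nat_lit 0) (p (nat_lit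 0x40212) (nat_lit 0) (p (nat_lit 0x28192) (nat_lit 0) (p (nat_lit 0x30092) (nat_lit 0) (p (nat_lit 0x18012) (nat_lit 0) pn))))))))))))))))))))) :=
  Cl.node (nat_lit 0xc1) (nat_lit 2) (by decide +kernel) (ClAll.succ (ClAll.succ ClAll.zero n16) s26)

def n32 : Cl (O (nat_lit 1)) (R (nat_lit 139473))
    (p (nat_lit 0xc1) (nat_lit 0) (p (nat_lit 0x119) (nat_lit 1) (p (nat_lit 0xd1) (nat_lit 0) (p (nat_lit 0x81) (nat_lit 0) (p (nat_lit 0x41) (nat_lit 1) (p (nat_lit 0x9080788869a) (nat_lit 0) (p (nat_lit 0x8878706861a) (nat_lit 0) (p (nat_lit 0x800080687858a) (nat_lit 0) (p (nat_lit 0x800078605850a) (nat_lit 0) (p (nat_lit 0x605868482) (nat_lit 0) (p (nat_lit 0x585048402) (nat_lit 0) (p (nat_lit 0x160014) (nat_lit 0) (p (nat_lit 0x16000c) (nat_lit 0) (p (nat_lit 0x60592) (nat_lit 0) (p (nat_lit 0x48512) (nat_lit 0) (p (nat_lit 0x50392) (nat_lit 0) (p (nat_lit 0x38312) (nat_lit 0) (p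 (nat_lit 0x40212) (nat_lit 0) (p (nat_lit 0x28192) (nat_lit 0) (p (nat_lit 0x30092) (nat_lit 0) (p (nat_lit 0x18012) (nat_lit 0) pn))))))))))))))))))))) :=
  Cl.node (nat_lit 0xc9) (nat_lit 2) (by decide +kernel) (ClAll.succ (ClAll.succ ClAll.zero s27) n17)

def n33 : Cl (O (nat_lit 1)) (R (nat_lit 139473))
    (p (nat_lit 0xc1) (nat_lit 1) (p (nat_lit 0x119) (nat_lit 1) (p (nat_lit 0xd1) (nat_lit 0) (p (nat_lit 0x81) (nat_lit 0) (p (nat_lit 0x41) (nat_lit 1) (p (nat_lit 0x9080788869a) (nat_lit 0) (p (nat_lit 0x8878706861a) (nat_lit 0) (p (nat_lit 0x800080687858a) (nat_lit 0) (p (nat_lit 0x800078605850a) (nat_lit 0) (p (nat_lit 0x605868482) (nat_lit 0) (p (nat_lit 0x585048402) (nat_lit 0) (p (nat_lit 0x160014) (nat_lit 0) (p (nat_lit 0x16000c) (nat_lit 0) (p (nat_lit 0x60592) (nat_lit 0) (p (nat_lit 0x48512) (nat_lit 0) (p (nat_lit 0x50392) (nat_lit 0) (p (nat_lit 0x38312) (nat_lit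 0) (p (nat_lit 0x40212) (nat_lit 0) (p (nat_lit 0x28192) (nat_lit 0) (p (nat_lit 0x30092) (nat_lit 0) (p (nat_lit 0x18012) (nat_lit 0) pn))))))))))))))))))))) :=
  Cl.node (nat_lit 0x101) (nat_lit 2) (by decide +kernel) (ClAll.succ (ClAll.succ ClAll.zero n18) n19)

def n34 : Cl (O (nat_lit 1)) (R (nat_lit 139473))
    (p (nat_lit 0x101) (nat_lit 0) (p (nat_lit 0x111) (nat_lit 0) (p (nat_lit 0xd1) (nat_lit 1) (p (nat_lit 0x81) (nat_lit 0) (p (nat_lit 0x41) (nat_lit 1) (p (nat_lit 0x9080788869a) (nat_lit 0) (p (nat_lit 0x8878706861a) (nat_lit 0) (p (nat_lit 0x800080687858a) (nat_lit 0) (p (nat_lit 0x800078605850a) (nat_lit 0) (p (nat_lit 0x605868482) (nat_lit 0) (p (nat_lit 0x585048402) (nat_lit 0) (p (nat_lit 0x160014) (nat_lit 0) (p (nat_lit 0x16000c) (nat_lit 0) (p (nat_lit 0x60592) (nat_lit 0) (p (nat_lit 0x48512) (nat_lit 0) (p (nat_lit 0x50392) (nat_lit 0) (p (nat_lit 0x38312)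 (nat_lit 0) (p (nat_lit 0x40212) (nat_lit 0) (p (nat_lit 0x28192) (nat_lit 0) (p (nat_lit 0x30092) (nat_lit 0) (p (nat_lit 0x18012) (nat_lit 0) pn))))))))))))))))))))) :=
  Cl.node (nat_lit 0x109) (nat_lit 2) (by decide +kernel) (ClAll.succ (ClAll.succ ClAll.zero s40) n20)

def n35 : Cl (O (nat_lit 1)) (R (nat_lit 139473))
    (p (nat_lit 0x101) (nat_lit 1) (p (nat_lit 0x111) (nat_lit 0) (p (nat_lit 0xd1) (nat_lit 1) (p (nat_lit 0x81) (nat_lit 0) (p (nat_lit 0x41) (nat_lit 1) (p (nat_lit 0x9080788869a) (nat_lit 0) (p (nat_lit 0x8878706861a) (nat_lit 0) (p (nat_lit 0x800080687858a) (nat_lit 0) (p (nat_lit 0x800078605850a) (nat_lit 0) (p (nat_lit 0x605868482) (nat_lit 0) (p (nat_lit 0x585048402) (nat_lit 0) (p (nat_lit 0x160014) (nat_lit 0) (p (nat_lit 0x16000c) (nat_lit 0) (p (nat_lit 0x60592) (nat_lit 0) (p (nat_lit 0x48512) (nat_lit 0) (p (nat_lit 0x50392) (nat_lit 0) (p (nat_lit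 0x38312) (nat_lit 0) (p (nat_lit 0x40212) (nat_lit 0) (p (nat_lit 0x28192) (nat_lit 0) (p (nat_lit 0x30092) (nat_lit 0) (p (nat_lit 0x18012) (nat_lit 0) pn))))))))))))))))))))) :=
  Cl.node (nat_lit 0x89) (nat_lit 2) (by decide +kernel) (ClAll.succ (ClAll.succ ClAll.zero s45) n21)

def n36 : Cl (O (nat_lit 1)) (R (nat_lit 139473))
    (p (nat_lit 0x101) (nat_lit 0) (p (nat_lit 0x119) (nat_lit 0) (p (nat_lit 0xc1) (nat_lit 0) (p (nat_lit 0x81) (nat_lit 1) (p (nat_lit 0x41) (nat_lit 1) (p (nat_lit 0x9080788869a) (nat_lit 0) (p (nat_lit 0x8878706861a) (nat_lit 0) (p (nat_lit 0x800080687858a) (nat_lit 0) (p (nat_lit 0x800078605850a) (nat_lit 0) (p (nat_lit 0x605868482) (nat_lit 0) (p (nat_lit 0x585048402) (nat_lit 0) (p (nat_lit 0x160014) (nat_lit 0) (p (nat_lit 0x16000c) (nat_lit 0) (p (nat_lit 0x60592) (nat_lit 0) (p (nat_lit 0x48512) (nat_lit 0) (p (nat_lit 0x50392) (nat_lit 0)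 (p (nat_lit 0x38312) (nat_lit 0) (p (nat_lit 0x40212) (nat_lit 0) (p (nat_lit 0x28192) (nat_lit 0) (p (nat_lit 0x30092) (nat_lit 0) (p (nat_lit 0x18012) (nat_lit 0) pn))))))))))))))))))))) :=
  Cl.node (nat_lit 0x109) (nat_lit 2) (by decide +kernel) (ClAll.succ (ClAll.succ ClAll.zero s49) s50)

def n37 : Cl (O (nat_lit 1)) (R (nat_lit 139473))
    (p (nat_lit 0x101) (nat_lit 1) (p (nat_lit 0x119) (nat_lit 0) (p (nat_lit 0xc1) (nat_lit 0) (p (nat_lit 0x81) (nat_lit 1) (p (nat_lit 0x41) (nat_lit 1) (p (nat_lit 0x9080788869a) (nat_lit 0) (p (nat_lit 0x8878706861a) (nat_lit 0) (p (nat_lit 0x800080687858a) (nat_lit 0) (p (nat_lit 0x800078605850a) (nat_lit 0) (p (nat_lit 0x605868482) (nat_lit 0) (p (nat_lit 0x585048402) (nat_lit 0) (p (nat_lit 0x160014) (nat_lit 0) (p (nat_lit 0x16000c) (nat_lit 0) (p (nat_lit 0x60592) (nat_lit 0) (p (nat_lit 0x48512) (nat_lit 0) (p (nat_lit 0x50392)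 (nat_lit 0) (p (nat_lit 0x38312) (nat_lit 0) (p (nat_lit 0x40212) (nat_lit 0) (p (nat_lit 0x28192) (nat_lit 0) (p (nat_lit 0x30092) (nat_lit 0) (p (nat_lit 0x18012) (nat_lit 0) pn))))))))))))))))))))) :=
  Cl.node (nat_lit 0xc9) (nat_lit 2) (by decide +kernel) (ClAll.succ (ClAll.succ ClAll.zero n22) s53)

def n38 : Cl (O (nat_lit 1)) (R (nat_lit 139473))
    (p (nat_lit 0xc9) (nat_lit 0) (p (nat_lit 0x119) (nat_lit 1) (p (nat_lit 0xc1) (nat_lit 0) (p (nat_lit 0x81) (nat_lit 1) (p (nat_lit 0x41) (nat_lit 1) (p (nat_lit 0x9080788869a) (nat_lit 0) (p (nat_lit 0x8878706861a) (nat_lit 0) (p (nat_lit 0x800080687858a) (nat_lit 0) (p (nat_lit 0x800078605850a) (nat_lit 0) (p (nat_lit 0x605868482) (nat_lit 0) (p (nat_lit 0x585048402) (nat_lit 0) (p (nat_lit 0x160014) (nat_lit 0) (p (nat_lit 0x16000c) (nat_lit 0) (p (nat_lit 0x60592) (nat_lit 0) (p (nat_lit 0x48512) (nat_lit 0) (p (nat_lit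 0x50392) (nat_lit 0) (p (nat_lit 0x38312) (nat_lit 0) (p (nat_lit 0x40212) (nat_lit 0) (p (nat_lit 0x28192) (nat_lit 0) (p (nat_lit 0x30092) (nat_lit 0) (p (nat_lit 0x18012) (nat_lit 0) pn))))))))))))))))))))) :=
  Cl.node (nat_lit 0xd1) (nat_lit 2) (by decide +kernel) (ClAll.succ (ClAll.succ ClAll.zero s54) n23)

def n39 : Cl (O (nat_lit 1)) (R (nat_lit 139473))
    (p (nat_lit 0xc9) (nat_lit 1) (p (nat_lit 0x119) (nat_lit 1) (p (nat_lit 0xc1) (nat_lit 0) (p (nat_lit 0x81) (nat_lit 1) (p (nat_lit 0x41) (nat_lit 1) (p (nat_lit 0x9080788869a) (nat_lit 0) (p (nat_lit 0x8878706861a) (nat_lit 0) (p (nat_lit 0x800080687858a) (nat_lit 0) (p (nat_lit 0x800078605850a) (nat_lit 0) (p (nat_lit 0x605868482) (nat_lit 0) (p (nat_lit 0x585048402) (nat_lit 0) (p (nat_lit 0x160014) (nat_lit 0) (p (nat_lit 0x16000c) (nat_lit 0) (p (nat_lit 0x60592) (nat_lit 0) (p (nat_lit 0x48512) (nat_lit 0) (p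 (nat_lit 0x50392) (nat_lit 0) (p (nat_lit 0x38312) (nat_lit 0) (p (nat_lit 0x40212) (nat_lit 0) (p (nat_lit 0x28192) (nat_lit 0) (p (nat_lit 0x30092) (nat_lit 0) (p (nat_lit 0x18012) (nat_lit 0) pn))))))))))))))))))))) :=
  Cl.node (nat_lit 0x109) (nat_lit 2) (by decide +kernel) (ClAll.succ (ClAll.succ ClAll.zero n24) s62)

def n40 : Cl (O (nat_lit 1)) (R (nat_lit 139473))
    (p (nat_lit 0x119) (nat_lit 0) (p (nat_lit 0xd1) (nat_lit 0) (p (nat_lit 0x89) (nat_lit 0) (p (nat_lit 0x41) (nat_lit 0) (p (nat_lit 0x9080788869a) (nat_lit 0) (p (nat_lit 0x8878706861a) (nat_lit 0) (p (nat_lit 0x800080687858a) (nat_lit 0) (p (nat_lit 0x800078605850a) (nat_lit 0) (p (nat_lit 0x605868482) (nat_lit 0) (p (nat_lit 0x585048402) (nat_lit 0) (p (nat_lit 0x160014) (nat_lit 0) (p (nat_lit 0x16000c) (nat_lit 0) (p (nat_lit 0x60592) (nat_lit 0) (p (nat_lit 0x48512) (nat_lit 0) (p (nat_lit 0x50392)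 (nat_lit 0) (p (nat_lit 0x38312) (nat_lit 0) (p (nat_lit 0x40212) (nat_lit 0) (p (nat_lit 0x28192) (nat_lit 0) (p (nat_lit 0x30092) (nat_lit 0) (p (nat_lit 0x18012) (nat_lit 0) pn)))))))))))))))))))) :=
  Cl.node (nat_lit 0x101) (nat_lit 2) (by decide +kernel) (ClAll.succ (ClAll.succ ClAll.zero n25) n26)

def n41 : Cl (O (nat_lit 1)) (R (nat_lit 139473))
    (p (nat_lit 0x119) (nat_lit 1) (p (nat_lit 0xd1) (nat_lit 0) (p (nat_lit 0x89) (nat_lit 0) (p (nat_lit 0x41) (nat_lit 0) (p (nat_lit 0x9080788869a) (nat_lit 0) (p (nat_lit 0x8878706861a) (nat_lit 0) (p (nat_lit 0x800080687858a) (nat_lit 0) (p (nat_lit 0x800078605850a) (nat_lit 0) (p (nat_lit 0x605868482) (nat_lit 0) (p (nat_lit 0x585048402) (nat_lit 0) (p (nat_lit 0x160014) (nat_lit 0) (p (nat_lit 0x16000c) (nat_lit 0) (p (nat_lit 0x60592) (nat_lit 0) (p (nat_lit 0x48512) (nat_lit 0) (p (nat_lit 0x50392) (nat_lit 0) (p (nat_lit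 0x38312) (nat_lit 0) (p (nat_lit 0x40212) (nat_lit 0) (p (nat_lit 0x28192) (nat_lit 0) (p (nat_lit 0x30092) (nat_lit 0) (p (nat_lit 0x18012) (nat_lit 0) pn)))))))))))))))))))) :=
  Cl.node (nat_lit 0xc1) (nat_lit 2) (by decide +kernel) (ClAll.succ (ClAll.succ ClAll.zero s4) n27)

def n42 : Cl (O (nat_lit 1)) (R (nat_lit 139473))
    (p (nat_lit 0x111) (nat_lit 0) (p (nat_lit 0xd1) (nat_lit 1) (p (nat_lit 0x89) (nat_lit 0) (p (nat_lit 0x41) (nat_lit 0) (p (nat_lit 0x9080788869a) (nat_lit 0) (p (nat_lit 0x8878706861a) (nat_lit 0) (p (nat_lit 0x800080687858a) (nat_lit 0) (p (nat_lit 0x800078605850a) (nat_lit 0) (p (nat_lit 0x605868482) (nat_lit 0) (p (nat_lit 0x585048402) (nat_lit 0) (p (nat_lit 0x160014) (nat_lit 0) (p (nat_lit 0x16000c) (nat_lit 0) (p (nat_lit 0x60592) (nat_lit 0) (p (nat_lit 0x48512) (nat_lit 0) (p (nat_lit 0x50392) (nat_lit 0) (p (nat_lit 0x38312) (nat_lit 0)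 (p (nat_lit 0x40212) (nat_lit 0) (p (nat_lit 0x28192) (nat_lit 0) (p (nat_lit 0x30092) (nat_lit 0) (p (nat_lit 0x18012) (nat_lit 0) pn)))))))))))))))))))) :=
  Cl.node (nat_lit 0x101) (nat_lit 2) (by decide +kernel) (ClAll.succ (ClAll.succ ClAll.zero n28) n29)

def n43 : Cl (O (nat_lit 1)) (R (nat_lit 139473))
    (p (nat_lit 0x119) (nat_lit 0) (p (nat_lit 0xc9) (nat_lit 0) (p (nat_lit 0x89) (nat_lit 1) (p (nat_lit 0x41) (nat_lit 0) (p (nat_lit 0x9080788869a) (nat_lit 0) (p (nat_lit 0x8878706861a) (nat_lit 0) (p (nat_lit 0x800080687858a) (nat_lit 0) (p (nat_lit 0x800078605850a) (nat_lit 0) (p (nat_lit 0x605868482) (nat_lit 0) (p (nat_lit 0x585048402) (nat_lit 0) (p (nat_lit 0x160014) (nat_lit 0) (p (nat_lit 0x16000c) (nat_lit 0) (p (nat_lit 0x60592) (nat_lit 0) (p (nat_lit 0x48512) (nat_lit 0) (p (nat_lit 0x50392) (nat_lit 0) (p (nat_lit 0x38312) (nat_lit 0) (p (nat_lit 0x40212)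 (nat_lit 0) (p (nat_lit 0x28192) (nat_lit 0) (p (nat_lit 0x30092) (nat_lit 0) (p (nat_lit 0x18012) (nat_lit 0) pn)))))))))))))))))))) :=
  Cl.node (nat_lit 0x101) (nat_lit 2) (by decide +kernel) (ClAll.succ (ClAll.succ ClAll.zero s14) s15)

def n44 : Cl (O (nat_lit 1)) (R (nat_lit 139473))
    (p (nat_lit 0x119) (nat_lit 1) (p (nat_lit 0xc9) (nat_lit 0) (p (nat_lit 0x89) (nat_lit 1) (p (nat_lit 0x41) (nat_lit 0) (p (nat_lit 0x9080788869a) (nat_lit 0) (p (nat_lit 0x8878706861a) (nat_lit 0) (p (nat_lit 0x800080687858a) (nat_lit 0) (p (nat_lit 0x800078605850a) (nat_lit 0) (p (nat_lit 0x605868482) (nat_lit 0) (p (nat_lit 0x585048402) (nat_lit 0) (p (nat_lit 0x160014) (nat_lit 0) (p (nat_lit 0x16000c) (nat_lit 0) (p (nat_lit 0x60592) (nat_lit 0) (p (nat_lit 0x48512) (nat_lit 0) (p (nat_lit 0x50392) (nat_lit 0) (p (nat_lit 0x38312) (nat_lit 0) (p (nat_lit 0x40212) (nat_lit 0) (p (nat_lit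 0x28192) (nat_lit 0) (p (nat_lit 0x30092) (nat_lit 0) (p (nat_lit 0x18012) (nat_lit 0) pn)))))))))))))))))))) :=
  Cl.node (nat_lit 0xc1) (nat_lit 2) (by decide +kernel) (ClAll.succ (ClAll.succ ClAll.zero s16) s17)

def n45 : Cl (O (nat_lit 1)) (R (nat_lit 139473))
    (p (nat_lit 0x119) (nat_lit 0) (p (nat_lit 0xd1) (nat_lit 0) (p (nat_lit 0x81) (nat_lit 0) (p (nat_lit 0x41) (nat_lit 1) (p (nat_lit 0x9080788869a) (nat_lit 0) (p (nat_lit 0x8878706861a) (nat_lit 0) (p (nat_lit 0x800080687858a) (nat_lit 0) (p (nat_lit 0x800078605850a) (nat_lit 0) (p (nat_lit 0x605868482) (nat_lit 0) (p (nat_lit 0x585048402) (nat_lit 0) (p (nat_lit 0x160014) (nat_lit 0) (p (nat_lit 0x16000c) (nat_lit 0) (p (nat_lit 0x60592) (nat_lit 0) (p (nat_lit 0x48512) (nat_lit 0) (p (nat_lit 0x50392) (nat_lit 0) (p (nat_lit 0x38312) (nat_lit 0) (p (nat_lit 0x40212) (nat_lit 0) (p (nat_lit 0x28192) (nat_lit 0)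 (p (nat_lit 0x30092) (nat_lit 0) (p (nat_lit 0x18012) (nat_lit 0) pn)))))))))))))))))))) :=
  Cl.node (nat_lit 0x101) (nat_lit 2) (by decide +kernel) (ClAll.succ (ClAll.succ ClAll.zero n30) n31)

def n46 : Cl (O (nat_lit 1)) (R (nat_lit 139473))
    (p (nat_lit 0x119) (nat_lit 1) (p (nat_lit 0xd1) (nat_lit 0) (p (nat_lit 0x81) (nat_lit 0) (p (nat_lit 0x41) (nat_lit 1) (p (nat_lit 0x9080788869a) (nat_lit 0) (p (nat_lit 0x8878706861a) (nat_lit 0) (p (nat_lit 0x800080687858a) (nat_lit 0) (p (nat_lit 0x800078605850a) (nat_lit 0) (p (nat_lit 0x605868482) (nat_lit 0) (p (nat_lit 0x585048402) (nat_lit 0) (p (nat_lit 0x160014) (nat_lit 0) (p (nat_lit 0x16000c) (nat_lit 0) (p (nat_lit 0x60592) (nat_lit 0) (p (nat_lit 0x48512) (nat_lit 0) (p (nat_lit 0x50392) (nat_lit 0) (p (nat_lit 0x38312) (nat_lit 0) (p (nat_lit 0x40212) (nat_lit 0) (p (nat_lit 0x28192) (nat_lit 0) (p (nat_lit 0x30092)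 (nat_lit 0) (p (nat_lit 0x18012) (nat_lit 0) pn)))))))))))))))))))) :=
  Cl.node (nat_lit 0xc1) (nat_lit 2) (by decide +kernel) (ClAll.succ (ClAll.succ ClAll.zero n32) n33)

def n47 : Cl (O (nat_lit 1)) (R (nat_lit 139473))
    (p (nat_lit 0x111) (nat_lit 0) (p (nat_lit 0xd1) (nat_lit 1) (p (nat_lit 0x81) (nat_lit 0) (p (nat_lit 0x41) (nat_lit 1) (p (nat_lit 0x9080788869a) (nat_lit 0) (p (nat_lit 0x8878706861a) (nat_lit 0) (p (nat_lit 0x800080687858a) (nat_lit 0) (p (nat_lit 0x800078605850a) (nat_lit 0) (p (nat_lit 0x605868482) (nat_lit 0) (p (nat_lit 0x585048402) (nat_lit 0) (p (nat_lit 0x160014) (nat_lit 0) (p (nat_lit 0x16000c) (nat_lit 0) (p (nat_lit 0x60592) (nat_lit 0) (p (nat_lit 0x48512) (nat_lit 0) (p (nat_lit 0x50392) (nat_lit 0) (p (nat_lit 0x38312) (nat_lit 0) (p (nat_lit 0x40212) (nat_lit 0) (p (nat_lit 0x28192) (nat_lit 0) (p (nat_lit 0x30092) (nat_lit 0) (p (nat_lit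 0x18012) (nat_lit 0) pn)))))))))))))))))))) :=
  Cl.node (nat_lit 0x101) (nat_lit 2) (by decide +kernel) (ClAll.succ (ClAll.succ ClAll.zero n34) n35)

def n48 : Cl (O (nat_lit 1)) (R (nat_lit 139473))
    (p (nat_lit 0x119) (nat_lit 0) (p (nat_lit 0xc1) (nat_lit 0) (p (nat_lit 0x81) (nat_lit 1) (p (nat_lit 0x41) (nat_lit 1) (p (nat_lit 0x9080788869a) (nat_lit 0) (p (nat_lit 0x8878706861a) (nat_lit 0) (p (nat_lit 0x800080687858a) (nat_lit 0) (p (nat_lit 0x800078605850a) (nat_lit 0) (p (nat_lit 0x605868482) (nat_lit 0) (p (nat_lit 0x585048402) (nat_lit 0) (p (nat_lit 0x160014) (nat_lit 0) (p (nat_lit 0x16000c) (nat_lit 0) (p (nat_lit 0x60592) (nat_lit 0) (p (nat_lit 0x48512) (nat_lit 0) (p (nat_lit 0x50392) (nat_lit 0) (p (nat_lit 0x38312) (nat_lit 0) (p (nat_lit 0x40212) (nat_lit 0) (p (nat_lit 0x28192) (nat_lit 0) (p (nat_lit 0x30092) (nat_lit 0) (p (nat_lit 0x18012) (nat_lit 0)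 pn)))))))))))))))))))) :=
  Cl.node (nat_lit 0x101) (nat_lit 2) (by decide +kernel) (ClAll.succ (ClAll.succ ClAll.zero n36) n37)

def n49 : Cl (O (nat_lit 1)) (R (nat_lit 139473))
    (p (nat_lit 0x119) (nat_lit 1) (p (nat_lit 0xc1) (nat_lit 0) (p (nat_lit 0x81) (nat_lit 1) (p (nat_lit 0x41) (nat_lit 1) (p (nat_lit 0x9080788869a) (nat_lit 0) (p (nat_lit 0x8878706861a) (nat_lit 0) (p (nat_lit 0x800080687858a) (nat_lit 0) (p (nat_lit 0x800078605850a) (nat_lit 0) (p (nat_lit 0x605868482) (nat_lit 0) (p (nat_lit 0x585048402) (nat_lit 0) (p (nat_lit 0x160014) (nat_lit 0) (p (nat_lit 0x16000c) (nat_lit 0) (p (nat_lit 0x60592) (nat_lit 0) (p (nat_lit 0x48512) (nat_lit 0) (p (nat_lit 0x50392) (nat_lit 0) (p (nat_lit 0x38312) (nat_lit 0) (p (nat_lit 0x40212) (nat_lit 0) (p (nat_lit 0x28192) (nat_lit 0) (p (nat_lit 0x30092) (nat_lit 0) (p (nat_lit 0x18012) (nat_lit 0) pn))))))))))))))))))))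 :=
  Cl.node (nat_lit 0xc9) (nat_lit 2) (by decide +kernel) (ClAll.succ (ClAll.succ ClAll.zero n38) n39)

def n50 : Cl (O (nat_lit 1)) (R (nat_lit 139473))
    (p (nat_lit 0xd1) (nat_lit 0) (p (nat_lit 0x89) (nat_lit 0) (p (nat_lit 0x41) (nat_lit 0) (p (nat_lit 0x9080788869a) (nat_lit 0) (p (nat_lit 0x8878706861a) (nat_lit 0) (p (nat_lit 0x800080687858a) (nat_lit 0) (p (nat_lit 0x800078605850a) (nat_lit 0) (p (nat_lit 0x605868482) (nat_lit 0) (p (nat_lit 0x585048402) (nat_lit 0) (p (nat_lit 0x160014) (nat_lit 0) (p (nat_lit 0x16000c) (nat_lit 0) (p (nat_lit 0x60592) (nat_lit 0) (p (nat_lit 0x48512) (nat_lit 0) (p (nat_lit 0x50392) (nat_lit 0) (p (nat_lit 0x38312) (nat_lit 0) (p (nat_lit 0x40212) (nat_lit 0) (p (nat_lit 0x28192) (nat_lit 0) (p (nat_lit 0x30092) (nat_lit 0) (p (nat_lit 0x18012) (nat_lit 0) pn))))))))))))))))))) :=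
  Cl.node (nat_lit 0x119) (nat_lit 2) (by decide +kernel) (ClAll.succ (ClAll.succ ClAll.zero n40) n41)

def n51 : Cl (O (nat_lit 1)) (R (nat_lit 139473))
    (p (nat_lit 0xd1) (nat_lit 1) (p (nat_lit 0x89) (nat_lit 0) (p (nat_lit 0x41) (nat_lit 0) (p (nat_lit 0x9080788869a) (nat_lit 0) (p (nat_lit 0x8878706861a) (nat_lit 0) (p (nat_lit 0x800080687858a) (nat_lit 0) (p (nat_lit 0x800078605850a) (nat_lit 0) (p (nat_lit 0x605868482) (nat_lit 0) (p (nat_lit 0x585048402) (nat_lit 0) (p (nat_lit 0x160014) (nat_lit 0) (p (nat_lit 0x16000c) (nat_lit 0) (p (nat_lit 0x60592) (nat_lit 0) (p (nat_lit 0x48512) (nat_lit 0) (p (nat_lit 0x50392) (nat_lit 0) (p (nat_lit 0x38312) (nat_lit 0) (p (nat_lit 0x40212) (nat_lit 0) (p (nat_lit 0x28192) (nat_lit 0) (p (nat_lit 0x30092) (nat_lit 0) (p (nat_lit 0x18012) (nat_lit 0) pn))))))))))))))))))) :=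
  Cl.node (nat_lit 0x111) (nat_lit 2) (by decide +kernel) (ClAll.succ (ClAll.succ ClAll.zero n42) s13)

def n52 : Cl (O (nat_lit 1)) (R (nat_lit 139473))
    (p (nat_lit 0xc9) (nat_lit 0) (p (nat_lit 0x89) (nat_lit 1) (p (nat_lit 0x41) (nat_lit 0) (p (nat_lit 0x9080788869a) (nat_lit 0) (p (nat_lit 0x8878706861a) (nat_lit 0) (p (nat_lit 0x800080687858a) (nat_lit 0) (p (nat_lit 0x800078605850a) (nat_lit 0) (p (nat_lit 0x605868482) (nat_lit 0) (p (nat_lit 0x585048402) (nat_lit 0) (p (nat_lit 0x160014) (nat_lit 0) (p (nat_lit 0x16000c) (nat_lit 0) (p (nat_lit 0x60592) (nat_lit 0) (p (nat_lit 0x48512) (nat_lit 0) (p (nat_lit 0x50392) (nat_lit 0) (p (nat_lit 0x38312) (nat_lit 0) (p (nat_lit 0x40212) (nat_lit 0) (p (nat_lit 0x28192) (nat_lit 0) (p (nat_lit 0x30092) (nat_lit 0) (p (nat_lit 0x18012) (nat_lit 0) pn))))))))))))))))))) :=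
  Cl.node (nat_lit 0x119) (nat_lit 2) (by decide +kernel) (ClAll.succ (ClAll.succ ClAll.zero n43) n44)

def n53 : Cl (O (nat_lit 1)) (R (nat_lit 139473))
    (p (nat_lit 0xd1) (nat_lit 0) (p (nat_lit 0x81) (nat_lit 0) (p (nat_lit 0x41) (nat_lit 1) (p (nat_lit 0x9080788869a) (nat_lit 0) (p (nat_lit 0x8878706861a) (nat_lit 0) (p (nat_lit 0x800080687858a) (nat_lit 0) (p (nat_lit 0x800078605850a) (nat_lit 0) (p (nat_lit 0x605868482) (nat_lit 0) (p (nat_lit 0x585048402) (nat_lit 0) (p (nat_lit 0x160014) (nat_lit 0) (p (nat_lit 0x16000c) (nat_lit 0) (p (nat_lit 0x60592) (nat_lit 0) (p (nat_lit 0x48512) (nat_lit 0) (p (nat_lit 0x50392) (nat_lit 0) (p (nat_lit 0x38312) (nat_lit 0) (p (nat_lit 0x40212) (nat_lit 0) (p (nat_lit 0x28192) (nat_lit 0) (p (nat_lit 0x30092) (nat_lit 0) (p (nat_lit 0x18012) (nat_lit 0) pn))))))))))))))))))) :=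
  Cl.node (nat_lit 0x119) (nat_lit 2) (by decide +kernel) (ClAll.succ (ClAll.succ ClAll.zero n45) n46)

def n54 : Cl (O (nat_lit 1)) (R (nat_lit 139473))
    (p (nat_lit 0xd1) (nat_lit 1) (p (nat_lit 0x81) (nat_lit 0) (p (nat_lit 0x41) (nat_lit 1) (p (nat_lit 0x9080788869a) (nat_lit 0) (p (nat_lit 0x8878706861a) (nat_lit 0) (p (nat_lit 0x800080687858a) (nat_lit 0) (p (nat_lit 0x800078605850a) (nat_lit 0) (p (nat_lit 0x605868482) (nat_lit 0) (p (nat_lit 0x585048402) (nat_lit 0) (p (nat_lit 0x160014) (nat_lit 0) (p (nat_lit 0x16000c) (nat_lit 0) (p (nat_lit 0x60592) (nat_lit 0) (p (nat_lit 0x48512) (nat_lit 0) (p (nat_lit 0x50392) (nat_lit 0) (p (nat_lit 0x38312) (nat_lit 0) (p (nat_lit 0x40212) (nat_lit 0) (p (nat_lit 0x28192) (nat_lit 0) (p (nat_lit 0x30092) (nat_lit 0) (p (nat_lit 0x18012) (nat_lit 0) pn))))))))))))))))))) :=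
  Cl.node (nat_lit 0x111) (nat_lit 2) (by decide +kernel) (ClAll.succ (ClAll.succ ClAll.zero n47) s48)

def n55 : Cl (O (nat_lit 1)) (R (nat_lit 139473))
    (p (nat_lit 0xc1) (nat_lit 0) (p (nat_lit 0x81) (nat_lit 1) (p (nat_lit 0x41) (nat_lit 1) (p (nat_lit 0x9080788869a) (nat_lit 0) (p (nat_lit 0x8878706861a) (nat_lit 0) (p (nat_lit 0x800080687858a) (nat_lit 0) (p (nat_lit 0x800078605850a) (nat_lit 0) (p (nat_lit 0x605868482) (nat_lit 0) (p (nat_lit 0x585048402) (nat_lit 0) (p (nat_lit 0x160014) (nat_lit 0) (p (nat_lit 0x16000c) (nat_lit 0) (p (nat_lit 0x60592) (nat_lit 0) (p (nat_lit 0x48512) (nat_lit 0) (p (nat_lit 0x50392) (nat_lit 0) (p (nat_lit 0x38312) (nat_lit 0) (p (nat_lit 0x40212) (nat_lit 0) (p (nat_lit 0x28192) (nat_lit 0) (p (nat_lit 0x30092) (nat_lit 0) (p (nat_lit 0x18012) (nat_lit 0) pn))))))))))))))))))) :=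
  Cl.node (nat_lit 0x119) (nat_lit 2) (by decide +kernel) (ClAll.succ (ClAll.succ ClAll.zero n48) n49)

def n56 : Cl (O (nat_lit 1)) (R (nat_lit 139473))
    (p (nat_lit 0x89) (nat_lit 0) (p (nat_lit 0x41) (nat_lit 0) (p (nat_lit 0x9080788869a) (nat_lit 0) (p (nat_lit 0x8878706861a) (nat_lit 0) (p (nat_lit 0x800080687858a) (nat_lit 0) (p (nat_lit 0x800078605850a) (nat_lit 0) (p (nat_lit 0x605868482) (nat_lit 0) (p (nat_lit 0x585048402) (nat_lit 0) (p (nat_lit 0x160014) (nat_lit 0) (p (nat_lit 0x16000c) (nat_lit 0) (p (nat_lit 0x60592) (nat_lit 0) (p (nat_lit 0x48512) (nat_lit 0) (p (nat_lit 0x50392) (nat_lit 0) (p (nat_lit 0x38312) (nat_lit 0) (p (nat_lit 0x40212) (nat_lit 0) (p (nat_lit 0x28192) (nat_lit 0) (p (nat_lit 0x30092) (nat_lit 0) (p (nat_lit 0x18012) (nat_lit 0) pn)))))))))))))))))) :=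
  Cl.node (nat_lit 0xd1) (nat_lit 2) (by decide +kernel) (ClAll.succ (ClAll.succ ClAll.zero n50) n51)

def n57 : Cl (O (nat_lit 1)) (R (nat_lit 139473))
    (p (nat_lit 0x89) (nat_lit 1) (p (nat_lit 0x41) (nat_lit 0) (p (nat_lit 0x9080788869a) (nat_lit 0) (p (nat_lit 0x8878706861a) (nat_lit 0) (p (nat_lit 0x800080687858a) (nat_lit 0) (p (nat_lit 0x800078605850a) (nat_lit 0) (p (nat_lit 0x605868482) (nat_lit 0) (p (nat_lit 0x585048402) (nat_lit 0) (p (nat_lit 0x160014) (nat_lit 0) (p (nat_lit 0x16000c) (nat_lit 0) (p (nat_lit 0x60592) (nat_lit 0) (p (nat_lit 0x48512) (nat_lit 0) (p (nat_lit 0x50392) (nat_lit 0) (p (nat_lit 0x38312) (nat_lit 0) (p (nat_lit 0x40212) (nat_lit 0) (p (nat_lit 0x28192) (nat_lit 0) (p (nat_lit 0x30092) (nat_lit 0) (p (nat_lit 0x18012) (nat_lit 0) pn)))))))))))))))))) :=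
  Cl.node (nat_lit 0xc9) (nat_lit 2) (by decide +kernel) (ClAll.succ (ClAll.succ ClAll.zero n52) s18)

def n58 : Cl (O (nat_lit 1)) (R (nat_lit 139473))
    (p (nat_lit 0x81) (nat_lit 0) (p (nat_lit 0x41) (nat_lit 1) (p (nat_lit 0x9080788869a) (nat_lit 0) (p (nat_lit 0x8878706861a) (nat_lit 0) (p (nat_lit 0x800080687858a) (nat_lit 0) (p (nat_lit 0x800078605850a) (nat_lit 0) (p (nat_lit 0x605868482) (nat_lit 0) (p (nat_lit 0x585048402) (nat_lit 0) (p (nat_lit 0x160014) (nat_lit 0) (p (nat_lit 0x16000c) (nat_lit 0) (p (nat_lit 0x60592) (nat_lit 0) (p (nat_lit 0x48512) (nat_lit 0) (p (nat_lit 0x50392) (nat_lit 0) (p (nat_lit 0x38312) (nat_lit 0) (p (nat_lit 0x40212) (nat_lit 0) (p (nat_lit 0x28192) (nat_lit 0) (p (nat_lit 0x30092) (nat_lit 0) (p (nat_lit 0x18012) (nat_lit 0) pn)))))))))))))))))) :=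
  Cl.node (nat_lit 0xd1) (nat_lit 2) (by decide +kernel) (ClAll.succ (ClAll.succ ClAll.zero n53) n54)

def n59 : Cl (O (nat_lit 1)) (R (nat_lit 139473))
    (p (nat_lit 0x81) (nat_lit 1) (p (nat_lit 0x41) (nat_lit 1) (p (nat_lit 0x9080788869a) (nat_lit 0) (p (nat_lit 0x8878706861a) (nat_lit 0) (p (nat_lit 0x800080687858a) (nat_lit 0) (p (nat_lit 0x800078605850a) (nat_lit 0) (p (nat_lit 0x605868482) (nat_lit 0) (p (nat_lit 0x585048402) (nat_lit 0) (p (nat_lit 0x160014) (nat_lit 0) (p (nat_lit 0x16000c) (nat_lit 0) (p (nat_lit 0x60592) (nat_lit 0) (p (nat_lit 0x48512) (nat_lit 0) (p (nat_lit 0x50392) (nat_lit 0) (p (nat_lit 0x38312) (nat_lit 0) (p (nat_lit 0x40212) (nat_lit 0) (p (nat_lit 0x28192) (nat_lit 0) (p (nat_lit 0x30092) (nat_lit 0) (p (nat_lit 0x18012) (nat_lit 0) pn)))))))))))))))))) :=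
  Cl.node (nat_lit 0xc1) (nat_lit 2) (by decide +kernel) (ClAll.succ (ClAll.succ ClAll.zero n55) s63)

def n60 : Cl (O (nat_lit 1)) (R (nat_lit 139473))
    (p (nat_lit 0x41) (nat_lit 0) (p (nat_lit 0x9080788869a) (nat_lit 0) (p (nat_lit 0x8878706861a) (nat_lit 0) (p (nat_lit 0x800080687858a) (nat_lit 0) (p (nat_lit 0x800078605850a) (nat_lit 0) (p (nat_lit 0x605868482) (nat_lit 0) (p (nat_lit 0x585048402) (nat_lit 0) (p (nat_lit 0x160014) (nat_lit 0) (p (nat_lit 0x16000c) (nat_lit 0) (p (nat_lit 0x60592) (nat_lit 0) (p (nat_lit 0x48512) (nat_lit 0) (p (nat_lit 0x50392) (nat_lit 0) (p (nat_lit 0x38312) (nat_lit 0) (p (nat_lit 0x40212) (nat_lit 0) (p (nat_lit 0x28192) (nat_lit 0) (p (nat_lit 0x30092) (nat_lit 0) (p (nat_lit 0x18012) (nat_lit 0) pn))))))))))))))))) :=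
  Cl.node (nat_lit 0x89) (nat_lit 2) (by decide +kernel) (ClAll.succ (ClAll.succ ClAll.zero n56) n57)

def n61 : Cl (O (nat_lit 1)) (R (nat_lit 139473))
    (p (nat_lit 0x41) (nat_lit 1) (p (nat_lit 0x9080788869a) (nat_lit 0) (p (nat_lit 0x8878706861a) (nat_lit 0) (p (nat_lit 0x800080687858a) (nat_lit 0) (p (nat_lit 0x800078605850a) (nat_lit 0) (p (nat_lit 0x605868482) (nat_lit 0) (p (nat_lit 0x585048402) (nat_lit 0) (p (nat_lit 0x160014) (nat_lit 0) (p (nat_lit 0x16000c) (nat_lit 0) (p (nat_lit 0x60592) (nat_lit 0) (p (nat_lit 0x48512) (nat_lit 0) (p (nat_lit 0x50392) (nat_lit 0) (p (nat_lit 0x38312) (nat_lit 0) (p (nat_lit 0x40212) (nat_lit 0) (p (nat_lit 0x28192) (nat_lit 0) (p (nat_lit 0x30092) (nat_lit 0) (p (nat_lit 0x18012) (nat_lit 0) pn))))))))))))))))) :=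
  Cl.node (nat_lit 0x81) (nat_lit 2) (by decide +kernel) (ClAll.succ (ClAll.succ ClAll.zero n58) n59)

def n62 : Cl (O (nat_lit 1)) (R (nat_lit 139473))
    (p (nat_lit 0x9080788869a) (nat_lit 0) (p (nat_lit 0x8878706861a) (nat_lit 0) (p (nat_lit 0x800080687858a) (nat_lit 0) (p (nat_lit 0x800078605850a) (nat_lit 0) (p (nat_lit 0x605868482) (nat_lit 0) (p (nat_lit 0x585048402) (nat_lit 0) (p (nat_lit 0x160014) (nat_lit 0) (p (nat_lit 0x16000c) (nat_lit 0) (p (nat_lit 0x60592) (nat_lit 0) (p (nat_lit 0x48512) (nat_lit 0) (p (nat_lit 0x50392) (nat_lit 0) (p (nat_lit 0x38312) (nat_lit 0) (p (nat_lit 0x40212) (nat_lit 0) (p (nat_lit 0x28192) (nat_lit 0) (p (nat_lit 0x30092) (nat_lit 0) (p (nat_lit 0x18012) (nat_lit 0) pn)))))))))))))))) :=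
  Cl.node (nat_lit 0x41) (nat_lit 2) (by decide +kernel) (ClAll.succ (ClAll.succ ClAll.zero n60) n61)

def n63 : Cl (O (nat_lit 1)) (R (nat_lit 139473))
    (p (nat_lit 0x8878706861a) (nat_lit 0) (p (nat_lit 0x800080687858a) (nat_lit 0) (p (nat_lit 0x800078605850a) (nat_lit 0) (p (nat_lit 0x605868482) (nat_lit 0) (p (nat_lit 0x585048402) (nat_lit 0) (p (nat_lit 0x160014) (nat_lit 0) (p (nat_lit 0x16000c) (nat_lit 0) (p (nat_lit 0x60592) (nat_lit 0) (p (nat_lit 0x48512) (nat_lit 0) (p (nat_lit 0x50392) (nat_lit 0) (p (nat_lit 0x38312) (nat_lit 0) (p (nat_lit 0x40212) (nat_lit 0) (p (nat_lit 0x28192) (nat_lit 0) (p (nat_lit 0x30092) (nat_lit 0) (p (nat_lit 0x18012) (nat_lit 0) pn))))))))))))))) :=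
  Cl.node (nat_lit 0x9080788869a) (nat_lit 1) (by decide +kernel) (ClAll.succ ClAll.zero n62)

def n64 : Cl (O (nat_lit 1)) (R (nat_lit 139473))
    (p (nat_lit 0x800080687858a) (nat_lit 0) (p (nat_lit 0x800078605850a) (nat_lit 0) (p (nat_lit 0x605868482) (nat_lit 0) (p (nat_lit 0x585048402) (nat_lit 0) (p (nat_lit 0x160014) (nat_lit 0) (p (nat_lit 0x16000c) (nat_lit 0) (p (nat_lit 0x60592) (nat_lit 0) (p (nat_lit 0x48512) (nat_lit 0) (p (nat_lit 0x50392) (nat_lit 0) (p (nat_lit 0x38312) (nat_lit 0) (p (nat_lit 0x40212) (nat_lit 0) (p (nat_lit 0x28192) (nat_lit 0) (p (nat_lit 0x30092) (nat_lit 0) (p (nat_lit 0x18012) (nat_lit 0) pn)))))))))))))) :=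
  Cl.node (nat_lit 0x8878706861a) (nat_lit 1) (by decide +kernel) (ClAll.succ ClAll.zero n63)

def n65 : Cl (O (nat_lit 1)) (R (nat_lit 139473))
    (p (nat_lit 0x800078605850a) (nat_lit 0) (p (nat_lit 0x605868482) (nat_lit 0) (p (nat_lit 0x585048402) (nat_lit 0) (p (nat_lit 0x160014) (nat_lit 0) (p (nat_lit 0x16000c) (nat_lit 0) (p (nat_lit 0x60592) (nat_lit 0) (p (nat_lit 0x48512) (nat_lit 0) (p (nat_lit 0x50392) (nat_lit 0) (p (nat_lit 0x38312) (nat_lit 0) (p (nat_lit 0x40212) (nat_lit 0) (p (nat_lit 0x28192) (nat_lit 0) (p (nat_lit 0x30092) (nat_lit 0) (p (nat_lit 0x18012) (nat_lit 0) pn))))))))))))) :=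
  Cl.node (nat_lit 0x800080687858a) (nat_lit 1) (by decide +kernel) (ClAll.succ ClAll.zero n64)

def n66 : Cl (O (nat_lit 1)) (R (nat_lit 139473))
    (p (nat_lit 0x605868482) (nat_lit 0) (p (nat_lit 0x585048402) (nat_lit 0) (p (nat_lit 0x160014) (nat_lit 0) (p (nat_lit 0x16000c) (nat_lit 0) (p (nat_lit 0x60592) (nat_lit 0) (p (nat_lit 0x48512) (nat_lit 0) (p (nat_lit 0x50392) (nat_lit 0) (p (nat_lit 0x38312) (nat_lit 0) (p (nat_lit 0x40212) (nat_lit 0) (p (nat_lit 0x28192) (nat_lit 0) (p (nat_lit 0x30092) (nat_lit 0) (p (nat_lit 0x18012) (nat_lit 0) pn)))))))))))) :=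
  Cl.node (nat_lit 0x800078605850a) (nat_lit 1) (by decide +kernel) (ClAll.succ ClAll.zero n65)

def n67 : Cl (O (nat_lit 1)) (R (nat_lit 139473))
    (p (nat_lit 0x585048402) (nat_lit 0) (p (nat_lit 0x160014) (nat_lit 0) (p (nat_lit 0x16000c) (nat_lit 0) (p (nat_lit 0x60592) (nat_lit 0) (p (nat_lit 0x48512) (nat_lit 0) (p (nat_lit 0x50392) (nat_lit 0) (p (nat_lit 0x38312) (nat_lit 0) (p (nat_lit 0x40212) (nat_lit 0) (p (nat_lit 0x28192) (nat_lit 0) (p (nat_lit 0x30092) (nat_lit 0) (p (nat_lit 0x18012) (nat_lit 0) pn))))))))))) :=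
  Cl.node (nat_lit 0x605868482) (nat_lit 1) (by decide +kernel) (ClAll.succ ClAll.zero n66)

def n68 : Cl (O (nat_lit 1)) (R (nat_lit 139473))
    (p (nat_lit 0x160014) (nat_lit 0) (p (nat_lit 0x16000c) (nat_lit 0) (p (nat_lit 0x60592) (nat_lit 0) (p (nat_lit 0x48512) (nat_lit 0) (p (nat_lit 0x50392) (nat_lit 0) (p (nat_lit 0x38312) (nat_lit 0) (p (nat_lit 0x40212) (nat_lit 0) (p (nat_lit 0x28192) (nat_lit 0) (p (nat_lit 0x30092) (nat_lit 0) (p (nat_lit 0x18012) (nat_lit 0) pn)))))))))) :=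
  Cl.node (nat_lit 0x585048402) (nat_lit 1) (by decide +kernel) (ClAll.succ ClAll.zero n67)

def n69 : Cl (O (nat_lit 1)) (R (nat_lit 139473))
    (p (nat_lit 0x16000c) (nat_lit 0) (p (nat_lit 0x60592) (nat_lit 0) (p (nat_lit 0x48512) (nat_lit 0) (p (nat_lit 0x50392) (nat_lit 0) (p (nat_lit 0x38312) (nat_lit 0) (p (nat_lit 0x40212) (nat_lit 0) (p (nat_lit 0x28192) (nat_lit 0) (p (nat_lit 0x30092) (nat_lit 0) (p (nat_lit 0x18012) (nat_lit 0) pn))))))))) :=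
  Cl.node (nat_lit 0x160014) (nat_lit 2) (by decide +kernel) (ClAll.succ (ClAll.succ ClAll.zero n68) s64)

def n70 : Cl (O (nat_lit 1)) (R (nat_lit 139473))
    (p (nat_lit 0x60592) (nat_lit 0) (p (nat_lit 0x48512) (nat_lit 0) (p (nat_lit 0x50392) (nat_lit 0) (p (nat_lit 0x38312) (nat_lit 0) (p (nat_lit 0x40212) (nat_lit 0) (p (nat_lit 0x28192) (nat_lit 0) (p (nat_lit 0x30092) (nat_lit 0) (p (nat_lit 0x18012) (nat_lit 0) pn)))))))) :=
  Cl.node (nat_lit 0x16000c) (nat_lit 2) (by decide +kernel) (ClAll.succ (ClAll.succ ClAll.zero n69) s65)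

def n71 : Cl (O (nat_lit 1)) (R (nat_lit 139473))
    (p (nat_lit 0x48512) (nat_lit 0) (p (nat_lit 0x50392) (nat_lit 0) (p (nat_lit 0x38312) (nat_lit 0) (p (nat_lit 0x40212) (nat_lit 0) (p (nat_lit 0x28192) (nat_lit 0) (p (nat_lit 0x30092) (nat_lit 0) (p (nat_lit 0x18012) (nat_lit 0) pn))))))) :=
  Cl.node (nat_lit 0x60592) (nat_lit 1) (by decide +kernel) (ClAll.succ ClAll.zero n70)

def n72 : Cl (O (nat_lit 1)) (R (nat_lit 139473))
    (p (nat_lit 0x50392) (nat_lit 0) (p (nat_lit 0x38312) (nat_lit 0) (p (nat_lit 0x40212) (nat_lit 0) (p (nat_lit 0x28192) (nat_lit 0) (p (nat_lit 0x30092) (nat_lit 0) (p (nat_lit 0x18012) (nat_lit 0) pn)))))) :=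
  Cl.node (nat_lit 0x48512) (nat_lit 1) (by decide +kernel) (ClAll.succ ClAll.zero n71)

def n73 : Cl (O (nat_lit 1)) (R (nat_lit 139473))
    (p (nat_lit 0x38312) (nat_lit 0) (p (nat_lit 0x40212) (nat_lit 0) (p (nat_lit 0x28192) (nat_lit 0) (p (nat_lit 0x30092) (nat_lit 0) (p (nat_lit 0x18012) (nat_lit 0) pn))))) :=
  Cl.node (nat_lit 0x50392) (nat_lit 1) (by decide +kernel) (ClAll.succ ClAll.zero n72)

def n74 : Cl (O (nat_lit 1)) (R (nat_lit 139473))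
    (p (nat_lit 0x40212) (nat_lit 0) (p (nat_lit 0x28192) (nat_lit 0) (p (nat_lit 0x30092) (nat_lit 0) (p (nat_lit 0x18012) (nat_lit 0) pn)))) :=
  Cl.node (nat_lit 0x38312) (nat_lit 1) (by decide +kernel) (ClAll.succ ClAll.zero n73)

def n75 : Cl (O (nat_lit 1)) (R (nat_lit 139473))
    (p (nat_lit 0x28192) (nat_lit 0) (p (nat_lit 0x30092) (nat_lit 0) (p (nat_lit 0x18012) (nat_lit 0) pn))) :=
  Cl.node (nat_lit 0x40212) (nat_lit 1) (by decide +kernel) (ClAll.succ ClAll.zero n74)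

def n76 : Cl (O (nat_lit 1)) (R (nat_lit 139473))
    (p (nat_lit 0x30092) (nat_lit 0) (p (nat_lit 0x18012) (nat_lit 0) pn)) :=
  Cl.node (nat_lit 0x28192) (nat_lit 1) (by decide +kernel) (ClAll.succ ClAll.zero n75)

def n77 : Cl (O (nat_lit 1)) (R (nat_lit 139473))
    (p (nat_lit 0x18012) (nat_lit 0) pn) :=
  Cl.node (nat_lit 0x30092) (nat_lit 1) (by decide +kernel) (ClAll.succ ClAll.zero n76)

def n78 : Cl (O (nat_lit 1)) (R (nat_lit 139473))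
    pn :=
  Cl.node (nat_lit 0x18012) (nat_lit 1) (by decide +kernel) (ClAll.succ ClAll.zero n77)

theorem top : Cl (O (nat_lit 1)) (R (nat_lit 139473)) pn := n78

end Pool.Agent.Gen.F5.X123C2Dm1
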